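import Mathlib

/-!
Block designs with parameters `(k(2k-1), 4k²-1, 2k+1, k, 1)`: the definition and the basic
quadratic identity.
-/

namespace Run7.h570

/-- `IsDesign k B`: the finite family `B` of subsets of the finite set `V` is a balanced incomplete
block design with parameters `(v,b,r,k,lambda) = (k(2k-1), 4k²-1, 2k+1, k, 1)`. -/
structure IsDesign {V : Type} [Fintype V] [DecidableEq V] (k : ℕ) (B : Finset (Finset V)) :
    Prop where
  card_points : Fintype.card V = k * (2 * k - 1)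
  card_blocks : B.card = 4 * k ^ 2 - 1
  block_size : ∀ b ∈ B, b.card = k
  point_degree : ∀ x : V, (B.filter (fun b => x ∈ b)).card = 2 * k + 1
  pair_degree : ∀ x y : V, x ≠ y → (B.filter (fun b => x ∈ b ∧ y ∈ b)).card = 1

namespace IsDesign

variable {V : Type} [Fintype V] [DecidableEq V] {k : ℕ} {B : Finset (Finset V)}

lemma exists_block (hB : IsDesign k B) {x y : V} (hxy : x ≠ y) :
    ∃ b ∈ B, x ∈ b ∧ y ∈ b := by
  have h := hB.pair_degree x y hxy
  obtain ⟨b, hb⟩ := Finset.card_pos.mp (by rw [h]; exact one_pos)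
  rw [Finset.mem_filter] at hb
  exact ⟨b, hb.1, hb.2.1, hb.2.2⟩

lemma unique_block (hB : IsDesign k B) {x y : V} (hxy : x ≠ y) {b c : Finset V}
    (hb : b ∈ B) (hxb : x ∈ b) (hyb : y ∈ b) (hc : c ∈ B) (hxc : x ∈ c) (hyc : y ∈ c) :
    b = c := by
  have h := hB.pair_degree x y hxy
  rw [Finset.card_eq_one] at h
  obtain ⟨a, ha⟩ := h
  have h1 : b ∈ B.filter (fun b => x ∈ b ∧ y ∈ b) := by
    rw [Finset.mem_filter]; exact ⟨hb, hxb, hyb⟩
  have h2 : c ∈ B.filter (fun b => x ∈ b ∧ y ∈ b) := by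
    rw [Finset.mem_filter]; exact ⟨hc, hxc, hyc⟩
  rw [ha, Finset.mem_singleton] at h1 h2
  rw [h1, h2]

/-- The quadratic identity `∑_b (∑_{x ∈ b} h x)² = 2k ∑_x (h x)² + (∑_x h x)²`. -/
lemma sum_sq (hB : IsDesign k B) (h : V → ℤ) :
    ∑ b ∈ B, (∑ x ∈ b, h x) ^ 2 = 2 * k * ∑ x, h x ^ 2 + (∑ x, h x) ^ 2 := by
  have h1 : ∀ b ∈ B, (∑ x ∈ b, h x) ^ 2
      = ∑ x : V, ∑ y : V, (if x ∈ b ∧ y ∈ b then h x * h y else 0) := by
    intro b _
    have h2 : ∑ x ∈ b, h x = ∑ x : V, (if x ∈ b then h x else 0) := by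
      rw [← Finset.sum_filter]; congr 1; ext x; simp
    rw [h2, sq, Finset.sum_mul_sum]
    refine Finset.sum_congr rfl (fun x _ => Finset.sum_congr rfl (fun y _ => ?_))
    by_cases hx : x ∈ b <;> by_cases hy : y ∈ b <;> simp [hx, hy]
  rw [Finset.sum_congr rfl h1, Finset.sum_comm]
  have h3 : ∀ x : V, ∑ b ∈ B, ∑ y : V, (if x ∈ b ∧ y ∈ b then h x * h y else 0)
      = ∑ y : V, (h x * h y + (if x = y then 2 * k * (h x * h y) else 0)) := by
    intro x
    rw [Finset.sum_comm]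
    refine Finset.sum_congr rfl (fun y _ => ?_)
    rw [← Finset.sum_filter, Finset.sum_const, nsmul_eq_mul]
    by_cases hxy : x = y
    · subst hxy
      have h4 : (B.filter (fun b => x ∈ b ∧ x ∈ b)).card = 2 * k + 1 := by
        rw [← hB.point_degree x]; congr 1; ext b; simp
      rw [h4]; push_cast; simp; ring
    · rw [hB.pair_degree x y hxy]; simp [hxy]
  rw [Finset.sum_congr rfl (fun x _ => h3 x)]
  simp only [Finset.sum_add_distrib, Finset.sum_ite_eq, Finset.mem_univ, if_true]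
  rw [sq (∑ x, h x), Finset.sum_mul_sum, Finset.mul_sum]
  rw [add_comm]
  congr 1
  exact Finset.sum_congr rfl (fun x _ => by ring)

end IsDesign

end Run7.h570
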