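import Mathlib
import Pool.Agent.Run7.h570.Design

/-!
Involutions with exactly one fixed point of a design with parameters
`(k(2k-1), 4k²-1, 2k+1, k, 1)`, `k` odd.
-/

namespace Run7.h570

open Finset

variable {V : Type} [Fintype V] [DecidableEq V] {k : ℕ} {B : Finset (Finset V)}

/-- An invariant function on a finset with a fixed point free involution has even sum. -/
lemma even_sum_of_invol {α : Type} [DecidableEq α] (S : Finset α) (g : α → α)
    (hg : ∀ a ∈ S, g a ∈ S) (hgg : ∀ a ∈ S, g (g a) = a) (hne : ∀ a ∈ S, g a ≠ a)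
    (f : α → ℤ) (hf : ∀ a ∈ S, f (g a) = f a) : (2 : ℤ) ∣ ∑ a ∈ S, f a := by
  have h : ∑ a ∈ S, ((f a : ℤ) : ZMod 2) = 0 := by
    refine Finset.sum_involution (fun a _ => g a) ?_ ?_ ?_ ?_
    · intro a ha
      rw [hf a ha, ← two_mul]
      have : (2 : ZMod 2) = 0 := by decide
      rw [this, zero_mul]
    · intro a ha _; exact hne a ha
    · intro a ha; exact hg a ha
    · intro a ha; exact hgg a ha
  rw [← Int.cast_sum] at h
  exact (ZMod.intCast_zmod_eq_zero_iff_dvd _ 2).mp h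

/-- A sign function adapted to an involution. -/
lemma exists_sign (τ : V → V) (hτ : ∀ x, τ (τ x) = x) :
    ∃ h : V → ℤ, (∀ x, τ x = x → h x = 0) ∧ (∀ x, τ x ≠ x → h x = 1 ∨ h x = -1) ∧
      (∀ x, h (τ x) = - h x) := by
  classical
  let e := Fintype.equivFin V
  refine ⟨fun x => if τ x = x then 0 else if e x < e (τ x) then 1 else -1, ?_, ?_, ?_⟩
  · intro x hx; simp [hx]
  · intro x hx
    simp only [hx, if_false]
    split_ifs <;> simp
  · intro x
    by_cases hx : τ x = x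
    · simp [hx]
    · have h1 : τ (τ x) ≠ τ x := fun h => hx (by rw [hτ x] at h; exact h.symm)
      have h2 : e x ≠ e (τ x) := fun h => hx (e.injective h).symm
      simp only [hτ x, hx, if_false]
      rw [if_neg (fun h => hx h.symm)]
      rcases lt_or_gt_of_ne h2 with h3 | h3
      · rw [if_neg (not_lt.mpr h3.le), if_pos h3]
      · rw [if_pos h3, if_neg (not_lt.mpr h3.le)]; simp

omit [Fintype V] [DecidableEq V] in
lemma sum_odd {b : Finset V} (h : V → ℤ) (hh : ∀ x ∈ b, h x = 1 ∨ h x = -1) :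
    (∑ x ∈ b, h x) % 2 = (b.card : ℤ) % 2 := by
  have h1 : (2 : ℤ) ∣ ∑ x ∈ b, h x - (b.card : ℤ) := by
    have : ∑ x ∈ b, h x - (b.card : ℤ) = ∑ x ∈ b, (h x - 1) := by
      rw [Finset.sum_sub_distrib]; simp
    rw [this]
    refine Finset.dvd_sum (fun x hx => ?_)
    rcases hh x hx with h2 | h2 <;> rw [h2] <;> norm_num
  omega

theorem card_fixed_ne_one (hk : k % 4 = 3) (hB : IsDesign k B) (τ : V → V)
    (hτ : ∀ x, τ (τ x) = x) (hτB : ∀ b ∈ B, b.image τ ∈ B) :
    (univ.filter (fun x => τ x = x)).card ≠ 1 := by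
  classical
  intro hone
  obtain ⟨p, hp⟩ := Finset.card_eq_one.mp hone
  have hpfix : τ p = p := by
    have : p ∈ univ.filter (fun x => τ x = x) := by rw [hp]; simp
    simpa using this
  have hpuniq : ∀ x, τ x = x → x = p := by
    intro x hx
    have : x ∈ univ.filter (fun x => τ x = x) := by simp [hx]
    rw [hp] at this; simpa using this
  have hinj : Function.Injective τ := fun x y hxy => by rw [← hτ x, hxy, hτ y]
  have himim : ∀ b : Finset V, (b.image τ).image τ = b := by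
    intro b; rw [Finset.image_image]
    have : τ ∘ τ = id := by ext x; simp [hτ x]
    rw [this, Finset.image_id]
  obtain ⟨h, h0, h1, hneg⟩ := exists_sign τ hτ
  -- blocks fixed by τ contain p
  have hfixmem : ∀ b ∈ B, b.image τ = b → p ∈ b := by
    intro b hb hfix
    by_contra hpb
    have hmem : ∀ a ∈ b, τ a ∈ b := by
      intro a ha
      have : τ a ∈ b.image τ := Finset.mem_image_of_mem τ ha
      rwa [hfix] at this
    have h2 : (2 : ℤ) ∣ ∑ a ∈ b, (1 : ℤ) :=
      even_sum_of_invol b τ hmem (fun a _ => hτ a)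
        (fun a ha hfa => hpb (by rw [← hpuniq a hfa]; exact ha)) (fun _ => 1) (fun _ _ => rfl)
    rw [Finset.sum_const, nsmul_eq_mul, mul_one, hB.block_size b hb] at h2
    omega
  -- blocks through p are fixed by τ
  have hpfixed : ∀ b ∈ B, p ∈ b → b.image τ = b := by
    intro b hb hpb
    have hcard : 1 < b.card := by rw [hB.block_size b hb]; omega
    obtain ⟨x, hx, hxp⟩ := Finset.exists_mem_ne hcard p
    have hxτ : x ≠ τ x := fun hh => hxp (hpuniq x hh.symm)
    obtain ⟨c, hc, hxc, hτxc⟩ := hB.exists_block hxτ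
    have hcfix : c.image τ = c := by
      refine hB.unique_block hxτ (hτB c hc) ?_ ?_ hc hxc hτxc
      · rw [Finset.mem_image]; exact ⟨τ x, hτxc, hτ x⟩
      · exact Finset.mem_image_of_mem τ hxc
    have hpc : p ∈ c := hfixmem c hc hcfix
    have : b = c := hB.unique_block hxp hb hx hpb hc hxc hpc
    rw [this]; exact hcfix
  -- block sums
  have hsum0 : ∀ b ∈ B, p ∈ b → ∑ x ∈ b, h x = 0 := by
    intro b hb hpb
    have hfix := hpfixed b hb hpb
    have h2 : ∑ x ∈ b, h x = ∑ x ∈ b.image τ, h x := by rw [hfix]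
    rw [Finset.sum_image (fun x _ y _ hxy => hinj hxy)] at h2
    simp only [hneg, Finset.sum_neg_distrib] at h2
    omega
  have htot : ∑ x, h x = 0 := by
    have h2 : ∑ x, h x = ∑ x, h (τ x) := by
      have hbij : Function.Bijective τ := hinj.bijective_of_finite
      exact (Function.Bijective.sum_comp hbij h).symm
    simp only [hneg, Finset.sum_neg_distrib] at h2
    omega
  have hsqtot : ∑ x, h x ^ 2 = (Fintype.card V : ℤ) - 1 := by
    have h2 : ∀ x : V, h x ^ 2 = 1 - (if x = p then 1 else 0) := by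
      intro x
      by_cases hx : x = p
      · rw [hx, h0 p hpfix]; simp
      · rcases h1 x (fun hh => hx (hpuniq x hh)) with h3 | h3 <;> rw [h3] <;> simp [hx]
    rw [Finset.sum_congr rfl (fun x _ => h2 x), Finset.sum_sub_distrib]
    simp
  have hmain := hB.sum_sq h
  rw [htot, hsqtot] at hmain
  -- split blocks
  have hsplit : ∑ b ∈ B, (∑ x ∈ b, h x) ^ 2
      = ∑ b ∈ B.filter (fun b => p ∉ b), (∑ x ∈ b, h x) ^ 2 := by
    rw [Finset.sum_filter]
    refine Finset.sum_congr rfl (fun b hb => ?_)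
    by_cases hpb : p ∈ b
    · rw [hsum0 b hb hpb]; simp [hpb]
    · simp [hpb]
  set S := B.filter (fun b => p ∉ b) with hS
  have hScard : S.card = 4 * k ^ 2 - 1 - (2 * k + 1) := by
    have h2 := Finset.card_filter_add_card_filter_not (s := B) (fun b => p ∈ b)
    rw [hB.point_degree p, hB.card_blocks] at h2
    rw [hS]; omega
  have hoddsq : ∀ b ∈ S, ∃ t : ℤ, (∑ x ∈ b, h x) ^ 2 = 8 * t + 1 := by
    intro b hb
    rw [hS, Finset.mem_filter] at hb
    have h2 : (∑ x ∈ b, h x) % 2 = (b.card : ℤ) % 2 :=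
      sum_odd h (fun x hx => h1 x (fun hh => hb.2 (by rw [← hpuniq x hh]; exact hx)))
    rw [hB.block_size b hb.1] at h2
    have h3 : (∑ x ∈ b, h x) % 2 = 1 := by omega
    obtain ⟨m, hm⟩ : ∃ m, ∑ x ∈ b, h x = 2 * m + 1 := ⟨(∑ x ∈ b, h x) / 2, by omega⟩
    obtain ⟨n, hn⟩ : ∃ n, m * (m + 1) = 2 * n := by
      rcases Int.even_mul_succ_self m with ⟨n, hn⟩
      exact ⟨n, by rw [hn]; ring⟩
    exact ⟨n, by rw [hm]; nlinarith [hn]⟩
  have h16 : (16 : ℤ) ∣ ∑ b ∈ S, ((∑ x ∈ b, h x) ^ 2 - 1) := by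
    have h2 : (2 : ℤ) ∣ ∑ b ∈ S, ((∑ x ∈ b, h x) ^ 2 - 1) / 8 := by
      refine even_sum_of_invol S (fun b => b.image τ) ?_ (fun b _ => himim b) ?_ _ ?_
      · intro b hb
        rw [hS, Finset.mem_filter] at hb ⊢
        refine ⟨hτB b hb.1, fun hpb => hb.2 ?_⟩
        obtain ⟨y, hy, hyp⟩ := Finset.mem_image.mp hpb
        have : y = p := hinj (by rw [hyp, hpfix])
        rwa [← this]
      · intro b hb hfix
        rw [hS, Finset.mem_filter] at hb
        exact hb.2 (hfixmem b hb.1 hfix)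
      · intro b _
        have : ∑ x ∈ b.image τ, h x = - ∑ x ∈ b, h x := by
          rw [Finset.sum_image (fun x _ y _ hxy => hinj hxy)]
          simp only [hneg, Finset.sum_neg_distrib]
        simp only [this, neg_sq]
    have h3 : ∑ b ∈ S, ((∑ x ∈ b, h x) ^ 2 - 1) = 8 * ∑ b ∈ S, ((∑ x ∈ b, h x) ^ 2 - 1) / 8 := by
      rw [Finset.mul_sum]
      refine Finset.sum_congr rfl (fun b hb => ?_)
      obtain ⟨t, ht⟩ := hoddsq b hb
      rw [ht]; omega
    rw [h3]
    obtain ⟨c, hc⟩ := h2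
    exact ⟨c, by rw [hc]; ring⟩
  rw [Finset.sum_sub_distrib, ← hsplit, hmain] at h16
  simp only [Finset.sum_const, nsmul_eq_mul, mul_one, hScard, hB.card_points] at h16
  obtain ⟨m, rfl⟩ : ∃ m, k = 4 * m + 3 := ⟨k / 4, by omega⟩
  have e1 : ((4 * (4 * m + 3) ^ 2 - 1 - (2 * (4 * m + 3) + 1) : ℕ) : ℤ)
      = 4 * (4 * (m : ℤ) + 3) ^ 2 - 1 - (2 * (4 * m + 3) + 1) := by
    have : 1 + (2 * (4 * m + 3) + 1) ≤ 4 * (4 * m + 3) ^ 2 := by nlinarith
    zify [show 1 ≤ 4 * (4 * m + 3) ^ 2 by nlinarith,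
      show 2 * (4 * m + 3) + 1 ≤ 4 * (4 * m + 3) ^ 2 - 1 by omega]
  have e2 : (((4 * m + 3) * (2 * (4 * m + 3) - 1) : ℕ) : ℤ)
      = (4 * (m : ℤ) + 3) * (2 * (4 * m + 3) - 1) := by
    zify [show 1 ≤ 2 * (4 * m + 3) by omega]
  rw [e1, e2] at h16
  push_cast at h16
  obtain ⟨c, hc⟩ := h16
  -- 2 (k-1)^2 (2k+1) ≡ 8 mod 16
  have h5 : (2 : ℤ) * (4 * m + 3) * ((4 * m + 3) * (2 * (4 * m + 3) - 1) - 1) + 0
      - (4 * (4 * m + 3) ^ 2 - 1 - (2 * (4 * m + 3) + 1))
      = 8 * ((2 * (m : ℤ) + 1) ^ 2 * (8 * m + 7)) := by ring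
  rw [h5] at hc
  have h6 : ((2 * (m : ℤ) + 1) ^ 2 * (8 * m + 7)) % 2 = 1 := by
    have : (2 * (m : ℤ) + 1) ^ 2 * (8 * m + 7)
        = 2 * (16 * m ^ 3 + 30 * m ^ 2 + 18 * m + 3) + 1 := by ring
    rw [this]; omega
  omega

end Run7.h570
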