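import Mathlib
import Pool.Agent.Run7.h570.Design

/-!
Groups of automorphisms, block stabilisers, regular orbits of blocks, and the sign function of a
subgroup of index two.
-/

namespace Run7.h570

open Finset Pointwise

section orbits

variable {G X : Type} [Group G] [Fintype G] [DecidableEq X] [MulAction G X]

/-- If a group acts freely on a finite set with `2|G|` elements, then it has two orbits, and sums
of invariant functions can be read off from two representatives. -/
lemma sum_two_orbits (S : Finset X) (hS : ∀ g : G, ∀ x ∈ S, g • x ∈ S)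
    (hfree : ∀ x ∈ S, ∀ g : G, g • x = x → g = 1) (hcard : S.card = 2 * Fintype.card G)
    (f : X → ℤ) (hf : ∀ g : G, ∀ x ∈ S, f (g • x) = f x) :
    ∃ x₁ ∈ S, ∃ x₂ ∈ S, ∑ x ∈ S, f x = Fintype.card G * (f x₁ + f x₂) := by
  classical
  have hG : 0 < Fintype.card G := Fintype.card_pos
  have hinj : ∀ x ∈ S, Function.Injective (fun g : G => g • x) := by
    intro x hx g h hgh
    have h1 : (h⁻¹ * g) • x = x := by
      rw [mul_smul, show g • x = h • x from hgh, inv_smul_smul]
    have := hfree x hx _ h1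
    rw [inv_mul_eq_one] at this
    exact this.symm
  have horb : ∀ x ∈ S, ∑ y ∈ univ.image (fun g : G => g • x), f y = Fintype.card G * f x := by
    intro x hx
    rw [Finset.sum_image (fun a _ b _ hab => hinj x hx hab), Finset.sum_congr rfl
      (fun g _ => hf g x hx)]
    simp
  obtain ⟨x₁, hx₁⟩ := Finset.card_pos.mp (show 0 < S.card by omega)
  set O₁ := univ.image (fun g : G => g • x₁) with hO₁
  have hO₁S : O₁ ⊆ S := by
    intro y hy
    obtain ⟨g, _, rfl⟩ := Finset.mem_image.mp hy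
    exact hS g x₁ hx₁
  have hO₁c : O₁.card = Fintype.card G := by
    rw [hO₁, Finset.card_image_of_injective _ (hinj x₁ hx₁), Finset.card_univ]
  have hdiff : (S \ O₁).card = Fintype.card G := by
    rw [Finset.card_sdiff_of_subset hO₁S]; omega
  obtain ⟨x₂, hx₂⟩ := Finset.card_pos.mp (show 0 < (S \ O₁).card by omega)
  rw [Finset.mem_sdiff] at hx₂
  set O₂ := univ.image (fun g : G => g • x₂) with hO₂
  have hO₂c : O₂.card = Fintype.card G := by
    rw [hO₂, Finset.card_image_of_injective _ (hinj x₂ hx₂.1), Finset.card_univ]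
  have hO₂S : O₂ ⊆ S \ O₁ := by
    intro y hy
    obtain ⟨g, _, rfl⟩ := Finset.mem_image.mp hy
    rw [Finset.mem_sdiff]
    refine ⟨hS g x₂ hx₂.1, fun hmem => hx₂.2 ?_⟩
    obtain ⟨h, _, hh⟩ := Finset.mem_image.mp hmem
    rw [hO₁, Finset.mem_image]
    refine ⟨g⁻¹ * h, Finset.mem_univ _, ?_⟩
    rw [mul_smul, hh, inv_smul_smul]
  have hO₂eq : O₂ = S \ O₁ := Finset.eq_of_subset_of_card_le hO₂S (by rw [hdiff, hO₂c])
  refine ⟨x₁, hx₁, x₂, hx₂.1, ?_⟩
  rw [← Finset.sum_sdiff hO₁S, ← hO₂eq, horb x₁ hx₁, horb x₂ hx₂.1]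
  ring

end orbits

section sgn

variable {G : Type} [Group G]

open Classical in
/-- The sign function of a subset of index two. -/
noncomputable def sgn (N : Subgroup G) (g : G) : ℤ := if g ∈ N then 1 else -1

lemma sgn_sq (N : Subgroup G) (g : G) : sgn N g ^ 2 = 1 := by
  unfold sgn; split_ifs <;> norm_num

lemma sgn_one (N : Subgroup G) : sgn N 1 = 1 := by
  unfold sgn; rw [if_pos N.one_mem]

lemma sgn_mul {N : Subgroup G} (hN : N.index = 2) (g h : G) :
    sgn N (g * h) = sgn N g * sgn N h := by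
  have hmul := Subgroup.mul_mem_iff_of_index_two hN (a := g) (b := h)
  unfold sgn
  by_cases hg : g ∈ N <;> by_cases hh : h ∈ N <;> simp [hmul, hg, hh]

end sgn

section sumsq

/-- If `2k` is a sum of two squares of integers, then `k` is a sum of two squares. -/
lemma sum_two_squares_of_double {k : ℕ} {a b : ℤ} (h : a ^ 2 + b ^ 2 = 2 * k) :
    ∃ x y : ℕ, k = x ^ 2 + y ^ 2 := by
  have hpar : (a - b) % 2 = 0 := by
    have h1 : (a ^ 2 + b ^ 2) % 2 = 0 := by omega
    rcases Int.even_or_odd a with ⟨m, hm⟩ | ⟨m, hm⟩ <;>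
      rcases Int.even_or_odd b with ⟨n, hn⟩ | ⟨n, hn⟩
    · omega
    · exfalso
      have : a ^ 2 + b ^ 2 = 2 * (2 * m ^ 2 + 2 * n ^ 2 + 2 * n) + 1 := by rw [hm, hn]; ring
      omega
    · exfalso
      have : a ^ 2 + b ^ 2 = 2 * (2 * m ^ 2 + 2 * m + 2 * n ^ 2) + 1 := by rw [hm, hn]; ring
      omega
    · omega
  obtain ⟨d, hd⟩ : ∃ d, a = b + 2 * d := ⟨(a - b) / 2, by omega⟩
  refine ⟨(b + d).natAbs, d.natAbs, ?_⟩
  have h2 : (k : ℤ) = (b + d) ^ 2 + d ^ 2 := by
    have : 2 * (k : ℤ) = 2 * ((b + d) ^ 2 + d ^ 2) := by rw [← h, hd]; ring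
    linarith
  zify
  rw [sq_abs, sq_abs]
  exact h2

end sumsq

section free

variable {V : Type} [DecidableEq V]

/-- A permutation of prime order without fixed points on an invariant finset forces the prime to
divide the cardinality. -/
lemma prime_dvd_card_of_free {q : ℕ} (hq : q.Prime) (b : Finset V) (φ : V → V)
    (hmem : ∀ x ∈ b, φ x ∈ b) (hiter : ∀ x ∈ b, φ^[q] x = x) (hne : ∀ x ∈ b, φ x ≠ x) :
    q ∣ b.card := by
  classical
  haveI : Fact q.Prime := ⟨hq⟩
  let f : Function.End b := fun x => ⟨φ x.1, hmem x.1 x.2⟩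
  have hfn : ∀ n : ℕ, ∀ x : b, ((f ^ n) x : V) = φ^[n] x.1 := by
    intro n
    induction n with
    | zero => intro x; rfl
    | succ n ih =>
      intro x
      have : (f ^ (n + 1)) x = (f ^ n) (f x) := by rw [pow_succ]; rfl
      rw [this, ih (f x), Function.iterate_succ, Function.comp_apply]
  have hf : f ^ q ^ 1 = 1 := by
    rw [pow_one]
    funext x
    apply Subtype.ext
    rw [hfn q x, hiter x.1 x.2]; rfl
  have h := Equiv.Perm.card_fixedPoints_modEq (f := f) hf
  have h0 : Fintype.card (Function.fixedPoints f) = 0 := by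
    rw [Fintype.card_eq_zero_iff]
    refine ⟨fun x => ?_⟩
    have h1 : f x.1 = x.1 := x.2
    exact hne x.1.1 x.1.2 (congrArg Subtype.val h1)
  rw [h0, Fintype.card_coe] at h
  exact (Nat.modEq_zero_iff_dvd).mp h

end free

end Run7.h570
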