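import Mathlib
import Pool.Agent.Run7.h570.Orbits

/-!
Solvable groups in which the elements of order `p` centralise the two-subgroups they normalise.
-/

namespace Run7.h570

open Subgroup Pointwise
open scoped commutatorElement

/-- Every element of order `p` centralises every two-subgroup that it normalises. -/
def CentTwo (p : ℕ) (Γ : Type) [Group Γ] : Prop :=
  ∀ σ : Γ, orderOf σ = p → ∀ S : Subgroup Γ, IsPGroup 2 S → (∀ s ∈ S, σ * s * σ⁻¹ ∈ S) →
    ∀ s ∈ S, σ * s = s * σ

lemma CentTwo.subgroup {p : ℕ} {Γ : Type} [Group Γ] (h : CentTwo p Γ) (H : Subgroup Γ) :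
    CentTwo p H := by
  intro σ hσ S hS hn s hs
  have h1 := h (σ : Γ) (by rw [Subgroup.orderOf_coe]; exact hσ) (S.map H.subtype) (hS.map _)
    (by
      rintro _ ⟨t, ht, rfl⟩
      exact ⟨σ * t * σ⁻¹, hn t ht, rfl⟩) (s : Γ) ⟨s, hs, rfl⟩
  exact Subtype.ext h1

lemma index_of_sup {Γ : Type} [Group Γ] [Finite Γ] (H N : Subgroup Γ) [N.Normal]
    (h : H ⊔ N = ⊤) : H.index = H.relIndex N := by
  have h1 : N.relIndex (H ⊔ N) = N.relIndex H := relIndex_sup_right _ _
  rw [h, relIndex_top_right] at h1
  have h2 := relIndex_mul_index (inf_le_left : H ⊓ N ≤ H)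
  have h3 := relIndex_mul_index (inf_le_right : H ⊓ N ≤ N)
  rw [inf_relIndex_left, ← h1] at h2
  rw [inf_relIndex_right, ← h2, mul_comm] at h3
  have h4 : N.index ≠ 0 := FiniteIndex.index_ne_zero
  exact (Nat.eq_of_mul_eq_mul_left (Nat.pos_of_ne_zero h4) h3).symm

lemma card_sylow_eq {p : ℕ} [hp : Fact p.Prime] {Γ : Type} [Group Γ] [Finite Γ]
    (h1 : p ∣ Nat.card Γ) (h2 : ¬ p ^ 2 ∣ Nat.card Γ) (P : Sylow p Γ) : Nat.card P = p := by
  obtain ⟨m, hm⟩ := IsPGroup.iff_card.mp P.2
  have h3 := Subgroup.card_mul_index (P : Subgroup Γ)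
  have h4 : ¬ p ∣ (P : Subgroup Γ).index := P.not_dvd_index
  have h5 : m < 2 := by
    by_contra hcon
    apply h2
    rw [← h3]
    apply Dvd.dvd.mul_right
    have : Nat.card (P : Subgroup Γ) = p ^ m := hm
    rw [this]
    exact pow_dvd_pow p (by omega)
  have h6 : m ≠ 0 := by
    intro h0
    apply h4
    have : Nat.card (P : Subgroup Γ) = p ^ m := hm
    rw [this, h0, pow_zero, one_mul] at h3
    rw [h3]; exact h1
  have h7 : m = 1 := by omega
  have : Nat.card (P : Subgroup Γ) = p ^ m := hm
  rw [h7, pow_one] at this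
  exact this

lemma exists_generator {p : ℕ} [hp : Fact p.Prime] {Γ : Type} [Group Γ] [Finite Γ]
    (P : Subgroup Γ) (hP : Nat.card P = p) : ∃ σ : Γ, orderOf σ = p ∧ zpowers σ = P := by
  have : Nontrivial P := by
    rw [← Finite.one_lt_card_iff_nontrivial, hP]; exact hp.1.one_lt
  obtain ⟨σ, hσ⟩ := exists_ne (1 : P)
  have h1 : orderOf (σ : Γ) = p := by
    rw [Subgroup.orderOf_coe]
    have h2 : orderOf σ ∣ p := by rw [← hP]; exact orderOf_dvd_natCard σ
    rcases (Nat.dvd_prime hp.1).mp h2 with h3 | h3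
    · exact absurd (orderOf_eq_one_iff.mp h3) hσ
    · exact h3
  refine ⟨σ, h1, ?_⟩
  apply Subgroup.eq_of_le_of_card_ge
  · rw [zpowers_le]; exact σ.2
  · rw [Nat.card_zpowers, h1, hP]

theorem odd_sylow (p : ℕ) [hp : Fact p.Prime] : ∀ (n : ℕ) (Γ : Type) [Group Γ] [Finite Γ]
    [Group.IsSolvable Γ], Nat.card Γ = n → CentTwo p Γ → p ∣ Nat.card Γ → ¬ p ^ 2 ∣ Nat.card Γ →
    ¬ 2 ∣ Nat.card (Sylow p Γ) := by
  classical
  intro n
  induction n using Nat.strong_induction_on with
  | _ n ih =>
    intro Γ _ _ _ hcard hC hpd hp2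
    have h2prime : Fact (Nat.Prime 2) := ⟨Nat.prime_two⟩
    have hnt : Nontrivial Γ := by
      rw [← Finite.one_lt_card_iff_nontrivial]
      exact lt_of_lt_of_le hp.1.one_lt (Nat.le_of_dvd Nat.card_pos hpd)
    have hNlt : commutator Γ < ⊤ := Group.IsSolvable.commutator_lt_top_of_nontrivial Γ
    set N := commutator Γ with hN
    have hNdvd : Nat.card N ∣ Nat.card Γ := Subgroup.card_subgroup_dvd_card N
    have hNcard : Nat.card N < n := by
      rw [← hcard]
      have h1 := Subgroup.card_mul_index N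
      have h2 : N.index ≠ 1 := fun h => hNlt.ne (Subgroup.index_eq_one.mp h)
      have h3 : N.index ≠ 0 := FiniteIndex.index_ne_zero
      have h4 : 0 < Nat.card N := Nat.card_pos
      have h5 : Nat.card N * 2 ≤ Nat.card N * N.index := Nat.mul_le_mul_left _ (by omega)
      omega
    by_cases hpN : p ∣ Nat.card N
    · -- the Sylow p-subgroups lie in N
      have hp2N : ¬ p ^ 2 ∣ Nat.card N := fun h => hp2 (h.trans hNdvd)
      obtain ⟨P₀, hP₀⟩ : ∃ P₀ : Sylow p Γ, (P₀ : Subgroup Γ) ≤ N := by
        obtain ⟨Q⟩ : Nonempty (Sylow p N) := inferInstance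
        have hQc := card_sylow_eq hpN hp2N Q
        obtain ⟨P₀, hQP⟩ := (Q.2.map N.subtype).exists_le_sylow
        refine ⟨P₀, ?_⟩
        have h1 := card_sylow_eq hpd hp2 P₀
        have h2 : Nat.card ((Q : Subgroup N).map N.subtype) = p := by
          rw [Subgroup.card_map_of_injective N.subtype_injective]
          exact hQc
        have h3 : (Q : Subgroup N).map N.subtype = (P₀ : Subgroup Γ) := by
          apply Subgroup.eq_of_le_of_card_ge hQP
          rw [h2]
          exact le_of_eq h1
        rw [← h3]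
        exact Subgroup.map_subtype_le _
      have h1 := ih (Nat.card N) hNcard N rfl (hC.subgroup N) hpN hp2N
      have h2 : Nat.card (Sylow p N) = (normalizer (P₀ : Set Γ)).relIndex N := by
        rw [(P₀.subtype hP₀).card_eq_index_normalizer]
        have h3 := subgroupOf_normalizer_eq hP₀
        rw [Subgroup.relIndex]
        rw [show (normalizer ((P₀ : Subgroup Γ) : Set Γ)) = normalizer (P₀ : Set Γ) from rfl] at h3
        rw [h3]
        rfl
      rw [P₀.card_eq_index_normalizer, index_of_sup _ N (P₀.normalizer_sup_eq_top' hP₀), ← h2]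
      exact h1
    · -- N has order prime to p
      obtain ⟨P₀⟩ : Nonempty (Sylow p Γ) := inferInstance
      obtain ⟨σ, hσ, hσP⟩ := exists_generator (P₀ : Subgroup Γ) (card_sylow_eq hpd hp2 P₀)
      let α : MulAut N := MulAut.conjNormal σ
      have hαp : α ^ p = 1 := by
        show (MulAut.conjNormal σ) ^ p = 1
        rw [← map_pow, ← hσ, pow_orderOf_eq_one, map_one]
      obtain ⟨S₀, hS₀⟩ : ∃ S₀ : Sylow 2 N, α • S₀ = S₀ := by
        by_contra hcon
        push Not at hcon
        have : Fintype (Sylow 2 N) := Fintype.ofFinite _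
        have h1 : p ∣ (Finset.univ : Finset (Sylow 2 N)).card := by
          refine prime_dvd_card_of_free hp.1 Finset.univ (fun S => α • S)
            (fun _ _ => Finset.mem_univ _) ?_ (fun S _ => hcon S)
          intro S _
          have hit : ∀ m : ℕ, (fun S : Sylow 2 N => α • S)^[m] S = α ^ m • S := by
            intro m
            induction m with
            | zero => simp
            | succ m ihm => rw [Function.iterate_succ_apply', ihm, pow_succ', mul_smul]
          rw [hit, hαp, one_smul]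
        rw [Finset.card_univ, ← Nat.card_eq_fintype_card] at h1
        obtain ⟨S⟩ : Nonempty (Sylow 2 N) := inferInstance
        have h2 := S.card_dvd_index
        have h3 : (S : Subgroup N).index ∣ Nat.card N := Subgroup.index_dvd_card _
        exact hpN (h1.trans (h2.trans h3))
      let S : Subgroup Γ := (S₀ : Subgroup N).map N.subtype
      have hS2 : IsPGroup 2 S := S₀.2.map N.subtype
      have hSn : ∀ s ∈ S, σ * s * σ⁻¹ ∈ S := by
        rintro _ ⟨s, hs, rfl⟩
        refine ⟨α s, ?_, ?_⟩
        · have h1 : α • s ∈ (α • (S₀ : Subgroup N)) := Subgroup.smul_mem_pointwise_smul s α _ hs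
          rw [← Sylow.pointwise_smul_def, hS₀] at h1
          exact h1
        · exact MulAut.conjNormal_apply σ s
      have hScent := hC σ hσ S hS2 hSn
      have hSnorm : S ≤ normalizer (P₀ : Set Γ) := by
        intro s hs
        have h1 := hScent s hs
        have h2 : s ∈ Subgroup.centralizer ((P₀ : Subgroup Γ) : Set Γ) := by
          rw [Subgroup.mem_centralizer_iff]
          intro h hh
          have hh' : h ∈ zpowers σ := by rw [hσP]; exact hh
          obtain ⟨m, rfl⟩ := hh'
          exact ((show Commute σ s from h1).zpow_left m)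
        exact Subgroup.centralizer_le_normalizer _ h2
      have hSidx : S.relIndex N = (S₀ : Subgroup N).index := by
        rw [Subgroup.relIndex]
        congr 1
        exact Subgroup.comap_map_eq_self_of_injective N.subtype_injective _
      -- Frattini
      have hMn : (N ⊔ (P₀ : Subgroup Γ)).Normal := by
        refine ⟨fun m hm g => ?_⟩
        have h1 : g * m * g⁻¹ = ⁅g, m⁆ * m := by rw [commutatorElement_def]; group
        rw [h1]
        exact mul_mem (le_sup_left (a := N) (Subgroup.commutator_mem_commutator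
          (Subgroup.mem_top g) (Subgroup.mem_top m))) hm
      have hsup : normalizer (P₀ : Set Γ) ⊔ N = ⊤ := by
        have h1 := P₀.normalizer_sup_eq_top' (N := N ⊔ (P₀ : Subgroup Γ)) le_sup_right
        rw [eq_top_iff, ← h1]
        refine sup_le le_sup_left (sup_le le_sup_right ?_)
        exact le_trans Subgroup.le_normalizer le_sup_left
      rw [P₀.card_eq_index_normalizer, index_of_sup _ N hsup]
      intro h2
      have h3 : (normalizer (P₀ : Set Γ)).relIndex N ∣ S.relIndex N :=
        Subgroup.relIndex_dvd_of_le_left N hSnorm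
      rw [hSidx] at h3
      exact S₀.not_dvd_index (h2.trans h3)

theorem exists_normalised (p : ℕ) [hp : Fact p.Prime] (Γ : Type) [Group Γ] [Finite Γ]
    [Group.IsSolvable Γ] (hC : CentTwo p Γ) (h1 : p ∣ Nat.card Γ) (h2 : ¬ p ^ 2 ∣ Nat.card Γ)
    (τ : Γ) (hτ : τ * τ = 1) : ∃ σ : Γ, orderOf σ = p ∧ τ * σ * τ⁻¹ ∈ zpowers σ := by
  classical
  have hodd := odd_sylow p _ Γ rfl hC h1 h2
  obtain ⟨P, hP⟩ : ∃ P : Sylow p Γ, τ • P = P := by
    by_contra hcon
    push Not at hcon
    have : Fintype (Sylow p Γ) := Fintype.ofFinite _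
    apply hodd
    rw [Nat.card_eq_fintype_card, ← Finset.card_univ]
    refine prime_dvd_card_of_free Nat.prime_two Finset.univ (fun P => τ • P)
      (fun _ _ => Finset.mem_univ _) ?_ (fun P _ => hcon P)
    intro P _
    show τ • (τ • P) = P
    rw [← mul_smul, hτ, one_smul]
  obtain ⟨σ, hσ, hσP⟩ := exists_generator (P : Subgroup Γ) (card_sylow_eq h1 h2 P)
  refine ⟨σ, hσ, ?_⟩
  rw [hσP]
  rw [Sylow.smul_eq_iff_mem_normalizer] at hP
  have h3 : σ ∈ (P : Subgroup Γ) := by rw [← hσP]; exact mem_zpowers σ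
  exact (Subgroup.mem_normalizer_iff.mp hP σ).mp h3

end Run7.h570
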