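import Mathlib
import Pool.Agent.Run7.h570.Design
import Pool.Agent.Run7.h570.Orbits
import Pool.Agent.Run7.h570.Reverse

/-!
Involutions normalising a group of automorphisms of prime order `2k+1`.
-/

namespace Run7.h570

open Finset Pointwise

variable {V : Type} [Fintype V] [DecidableEq V] {k : ℕ} {B : Finset (Finset V)}

/-- An involution different from the identity has at most `3k-2` fixed points. -/
lemma card_fixed_le (hk : 2 ≤ k) (hB : IsDesign k B) (τ : Equiv.Perm V) (hτ1 : τ ≠ 1)
    (hτ : ∀ x, τ (τ x) = x) (hτB : ∀ b ∈ B, τ • b ∈ B) :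
    (univ.filter (fun x => τ x = x)).card ≤ 3 * k - 2 := by
  obtain ⟨y, hy⟩ : ∃ y, τ y ≠ y := by
    by_contra hcon
    push Not at hcon
    exact hτ1 (Equiv.ext hcon)
  obtain ⟨c, hc, hyc, hτyc⟩ := hB.exists_block hy.symm
  have hτc : τ • c = c := by
    refine hB.unique_block hy.symm (hτB c hc) ?_ ?_ hc hyc hτyc
    · have := Finset.smul_mem_smul_finset (a := τ) hτyc
      rwa [Equiv.Perm.smul_def, hτ] at this
    · have := Finset.smul_mem_smul_finset (a := τ) hyc
      rwa [Equiv.Perm.smul_def] at this
  -- fixed points off c inject into the blocks through y different from c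
  have hle1 : ((univ.filter (fun x => τ x = x)) \ c).card
      ≤ ((B.filter (fun b => y ∈ b)).erase c).card := by
    have hex : ∀ z ∈ (univ.filter (fun x => τ x = x)) \ c, ∃ b ∈ B, y ∈ b ∧ z ∈ b := by
      intro z hz
      rw [Finset.mem_sdiff, Finset.mem_filter] at hz
      have hyz : y ≠ z := fun h => hy (by rw [h]; exact hz.1.2)
      exact hB.exists_block hyz
    choose! β hβB hyβ hzβ using hex
    refine Finset.card_le_card_of_injOn β ?_ ?_
    · intro z hz
      have hz' := hz
      rw [Finset.mem_coe, Finset.mem_sdiff, Finset.mem_filter] at hz'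
      rw [Finset.mem_coe, Finset.mem_erase, Finset.mem_filter]
      refine ⟨fun h => hz'.2 (h ▸ hzβ z hz), hβB z hz, hyβ z hz⟩
    · intro z hz z' hz' hzz
      by_contra hne
      have hz1 := hz
      have hz1' := hz'
      rw [Finset.mem_coe, Finset.mem_sdiff, Finset.mem_filter] at hz1 hz1'
      have h1 : z' ∈ β z := by rw [hzz]; exact hzβ z' hz'
      have h2 : τ • β z = β z := by
        refine hB.unique_block hne (hτB _ (hβB z hz)) ?_ ?_ (hβB z hz) (hzβ z hz) h1
        · have := Finset.smul_mem_smul_finset (a := τ) (hzβ z hz)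
          rwa [Equiv.Perm.smul_def, hz1.1.2] at this
        · have := Finset.smul_mem_smul_finset (a := τ) h1
          rwa [Equiv.Perm.smul_def, hz1'.1.2] at this
      have h3 : τ y ∈ β z := by
        have := Finset.smul_mem_smul_finset (a := τ) (hyβ z hz)
        rwa [Equiv.Perm.smul_def, h2] at this
      have h4 : β z = c := hB.unique_block hy.symm (hβB z hz) (hyβ z hz) h3 hc hyc hτyc
      exact hz1.2 (h4 ▸ hzβ z hz)
  have hle2 : ((univ.filter (fun x => τ x = x)) ∩ c).card ≤ k - 2 := by
    have h1 : (univ.filter (fun x => τ x = x)) ∩ c ⊆ (c.erase y).erase (τ y) := by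
      intro z hz
      rw [Finset.mem_inter, Finset.mem_filter] at hz
      rw [Finset.mem_erase, Finset.mem_erase]
      refine ⟨fun h => hy ?_, fun h => hy ?_, hz.2⟩
      · have := hz.1.2; rw [h, hτ] at this; exact this.symm
      · rw [← h]; exact hz.1.2
    have h2 := Finset.card_le_card h1
    rw [Finset.card_erase_of_mem (by rw [Finset.mem_erase]; exact ⟨hy, hτyc⟩),
      Finset.card_erase_of_mem hyc, hB.block_size c hc] at h2
    omega
  have h3 : ((B.filter (fun b => y ∈ b)).erase c).card = 2 * k := by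
    rw [Finset.card_erase_of_mem (by rw [Finset.mem_filter]; exact ⟨hc, hyc⟩),
      hB.point_degree y]
    omega
  have h4 := Finset.card_sdiff_add_card_inter (univ.filter (fun x => τ x = x)) c
  omega

/-- The number of moved points of a block fixed by a permutation of prime order is divisible by
the prime. -/
lemma prime_dvd_moved {q : ℕ} (hq : q.Prime) (σ : Equiv.Perm V) (hσ : σ ^ q = 1) (b : Finset V)
    (hb : σ • b = b) : q ∣ (b.filter (fun x => σ x ≠ x)).card := by
  refine prime_dvd_card_of_free hq _ σ ?_ ?_ ?_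
  · intro x hx
    rw [Finset.mem_filter] at hx ⊢
    refine ⟨?_, fun h => hx.2 (σ.injective h)⟩
    have := Finset.smul_mem_smul_finset (a := σ) hx.1
    rwa [Equiv.Perm.smul_def, hb] at this
  · intro x _
    have : σ^[q] x = (σ ^ q) x := by rw [Equiv.Perm.coe_pow]
    rw [this, hσ]; rfl
  · intro x hx
    exact (Finset.mem_filter.mp hx).2

/-- Fixed points of an involution on an invariant finset of odd size. -/
lemma odd_fixed (τ : Equiv.Perm V) (hτ : ∀ x, τ (τ x) = x) (b : Finset V) (hb : τ • b = b)
    (hodd : b.card % 2 = 1) : (b.filter (fun x => τ x = x)).card % 2 = 1 := by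
  have h1 : 2 ∣ (b.filter (fun x => τ x ≠ x)).card := by
    refine prime_dvd_moved Nat.prime_two τ ?_ b hb
    ext x; simp [sq, hτ x]
  have h2 := Finset.card_filter_add_card_filter_not (s := b) (fun x => τ x = x)
  simp only [ne_eq] at h1
  omega

lemma pow_smul_mem (σ : Equiv.Perm V) (hσB : ∀ b ∈ B, σ • b ∈ B) (n : ℕ) :
    ∀ b ∈ B, σ ^ n • b ∈ B := by
  induction n with
  | zero => intro b hb; simpa using hb
  | succ n ih => intro b hb; rw [pow_succ', mul_smul]; exact hσB _ (ih b hb)

/-- Let `k ≡ 3 (mod 4)` and let `2k+1` be prime.  No involutory automorphism normalises a group of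
automorphisms of order `2k+1`. -/
theorem no_involution_normalises (hk4 : k % 4 = 3) (hp : (2 * k + 1).Prime) (hB : IsDesign k B)
    (σ τ : Equiv.Perm V) (hσB : ∀ b ∈ B, σ • b ∈ B) (hτB : ∀ b ∈ B, τ • b ∈ B)
    (hσ : orderOf σ = 2 * k + 1) (hτ2 : τ * τ = 1) (hτ1 : τ ≠ 1) (j : ℕ)
    (hnorm : τ * σ * τ = σ ^ j) : False := by
  classical
  have hk3 : 3 ≤ k := by omega
  have hτ : ∀ x, τ (τ x) = x := by
    intro x
    have := congrArg (fun f : Equiv.Perm V => f x) hτ2
    simpa using this
  have hσp : σ ^ (2 * k + 1) = 1 := by rw [← hσ]; exact pow_orderOf_eq_one σ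
  have hσ1 : σ ≠ 1 := by
    intro h; rw [h, orderOf_one] at hσ; omega
  have hv := hB.card_points
  have hv1 : (k - 1) * (2 * k + 1) + 1 = k * (2 * k - 1) := by
    obtain ⟨m, rfl⟩ : ∃ m, k = m + 2 := ⟨k - 2, by omega⟩
    have e1 : m + 2 - 1 = m + 1 := by omega
    have e2 : 2 * (m + 2) - 1 = 2 * m + 3 := by omega
    rw [e1, e2]; ring
  -- a block fixed by σ consists of fixed points
  have hfixblock : ∀ b ∈ B, σ • b = b → ∀ x ∈ b, σ x = x := by
    intro b hb hσb x hx
    by_contra hne
    have h1 := prime_dvd_moved hp σ hσp b hσb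
    have h2 : 0 < (b.filter (fun x => σ x ≠ x)).card :=
      Finset.card_pos.mpr ⟨x, by rw [Finset.mem_filter]; exact ⟨hx, hne⟩⟩
    have h3 := Nat.le_of_dvd h2 h1
    have h4 := Finset.card_filter_le b (fun x => σ x ≠ x)
    rw [hB.block_size b hb] at h4
    omega
  have hfixblock2 : ∀ b ∈ B, ∀ x ∈ b, ∀ y ∈ b, x ≠ y → σ x = x → σ y = y → σ • b = b := by
    intro b hb x hx y hy hxy hσx hσy
    refine hB.unique_block hxy (hσB b hb) ?_ ?_ hb hx hy
    · have := Finset.smul_mem_smul_finset (a := σ) hx
      rwa [Equiv.Perm.smul_def, hσx] at this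
    · have := Finset.smul_mem_smul_finset (a := σ) hy
      rwa [Equiv.Perm.smul_def, hσy] at this
  -- exactly one fixed point
  have hFmod : (2 * k + 1) ∣ (univ.filter (fun x => σ x ≠ x)).card :=
    prime_dvd_moved hp σ hσp univ (by ext x; simp)
  have hFsum := Finset.card_filter_add_card_filter_not (s := (univ : Finset V)) (fun x => σ x = x)
  rw [Finset.card_univ, hv, ← hv1] at hFsum
  have hFle : (univ.filter (fun x => σ x = x)).card ≤ 2 * k + 1 := by
    obtain ⟨y, hy⟩ : ∃ y, σ y ≠ y := by
      by_contra hcon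
      push Not at hcon
      exact hσ1 (Equiv.ext hcon)
    have hex : ∀ z ∈ (univ.filter (fun x => σ x = x)), ∃ b ∈ B, y ∈ b ∧ z ∈ b := by
      intro z hz
      rw [Finset.mem_filter] at hz
      exact hB.exists_block (fun h => hy (by rw [h]; exact hz.2))
    choose! β hβB hyβ hzβ using hex
    rw [← hB.point_degree y]
    refine Finset.card_le_card_of_injOn β ?_ ?_
    · intro z hz
      rw [Finset.mem_coe, Finset.mem_filter]
      exact ⟨hβB z hz, hyβ z hz⟩
    · intro z hz z' hz' hzz
      by_contra hne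
      have h1 : z' ∈ β z := by rw [hzz]; exact hzβ z' hz'
      have h2 := hfixblock2 (β z) (hβB z hz) z (hzβ z hz) z' h1 hne
        (Finset.mem_filter.mp hz).2 (Finset.mem_filter.mp hz').2
      exact hy (hfixblock (β z) (hβB z hz) h2 y (hyβ z hz))
  have hFone : (univ.filter (fun x => σ x = x)).card = 1 := by
    obtain ⟨m, hm⟩ := hFmod
    rw [hm] at hFsum
    have hmle : m ≤ k - 1 := by
      by_contra hcon
      push Not at hcon
      have : (2 * k + 1) * k ≤ (2 * k + 1) * m := Nat.mul_le_mul_left _ (by omega)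
      have h5 : (k - 1) * (2 * k + 1) + (2 * k + 1) = (2 * k + 1) * k := by
        obtain ⟨n, rfl⟩ : ∃ n, k = n + 1 := ⟨k - 1, by omega⟩
        have : n + 1 - 1 = n := by omega
        rw [this]; ring
      omega
    rcases Nat.lt_or_ge m (k - 1) with h6 | h6
    · exfalso
      have h7 : (2 * k + 1) * (m + 1) ≤ (2 * k + 1) * (k - 1) := Nat.mul_le_mul_left _ (by omega)
      have h8 : (2 * k + 1) * (m + 1) = (2 * k + 1) * m + (2 * k + 1) := by ring
      have h9 : (2 * k + 1) * (k - 1) = (k - 1) * (2 * k + 1) := by ring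
      omega
    · have h10 : m = k - 1 := by omega
      rw [h10, mul_comm (2 * k + 1) (k - 1)] at hFsum
      omega
  obtain ⟨p, hpF⟩ := Finset.card_eq_one.mp hFone
  have hσpt : σ p = p := by
    have : p ∈ univ.filter (fun x => σ x = x) := by rw [hpF]; simp
    simpa using this
  have hpuniq : ∀ x, σ x = x → x = p := by
    intro x hx
    have : x ∈ univ.filter (fun x => σ x = x) := by simp [hx]
    rw [hpF] at this; simpa using this
  have hblocknofix : ∀ b ∈ B, σ • b ≠ b := by
    intro b hb hσb
    have h1 : 1 < b.card := by rw [hB.block_size b hb]; omega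
    obtain ⟨x, hx, hxp⟩ := Finset.exists_mem_ne h1 p
    exact hxp (hpuniq x (hfixblock b hb hσb x hx))
  have hpowfix : ∀ n : ℕ, (σ ^ n) p = p := by
    intro n
    induction n with
    | zero => rfl
    | succ n ih => rw [pow_succ', Equiv.Perm.mul_apply, ih, hσpt]
  -- powers of σ act semiregularly on blocks
  have hsemi : ∀ b ∈ B, ∀ n : ℕ, σ ^ n • b = b → (2 * k + 1) ∣ n := by
    intro b hb n hn
    by_contra hnd
    have hcop : Nat.Coprime n (2 * k + 1) := ((Nat.Prime.coprime_iff_not_dvd hp).mpr hnd).symm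
    have h1 : σ ∈ Subgroup.zpowers (σ ^ n) := by
      rw [← hσ] at hcop
      obtain ⟨m, hm⟩ := exists_pow_eq_self_of_coprime hcop
      exact ⟨m, by show (σ ^ n) ^ (m : ℤ) = σ; rw [zpow_natCast]; exact hm⟩
    have h2 : σ ∈ MulAction.stabilizer (Equiv.Perm V) b := by
      have : Subgroup.zpowers (σ ^ n) ≤ MulAction.stabilizer (Equiv.Perm V) b := by
        rw [Subgroup.zpowers_le]; exact MulAction.mem_stabilizer_iff.mpr hn
      exact this h1
    exact hblocknofix b hb (MulAction.mem_stabilizer_iff.mp h2)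
  have hinjpow : ∀ b ∈ B, ∀ m n : ℕ, m < 2 * k + 1 → n < 2 * k + 1 → σ ^ m • b = σ ^ n • b →
      m = n := by
    have key : ∀ b ∈ B, ∀ m n : ℕ, m ≤ n → n < 2 * k + 1 → σ ^ m • b = σ ^ n • b → m = n := by
      intro b hb m n hmn hn h
      have h1 : σ ^ (n - m) • b = b := by
        have h2 : σ ^ n = σ ^ m * σ ^ (n - m) := by rw [← pow_add]; congr 1; omega
        rw [h2, mul_smul] at h
        exact (MulAction.injective (σ ^ m) h).symm
      have h3 := hsemi b hb _ h1
      rcases Nat.eq_zero_or_pos (n - m) with h4 | h4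
      · omega
      · have := Nat.le_of_dvd h4 h3; omega
    intro b hb m n hm hn h
    rcases le_total m n with hmn | hmn
    · exact key b hb m n hmn hn h
    · exact (key b hb n m hmn hm h.symm).symm
  -- transitivity on the blocks through p
  have htrans : ∀ b ∈ B, p ∈ b → ∀ c ∈ B, p ∈ c → ∃ n : ℕ, n < 2 * k + 1 ∧ σ ^ n • b = c := by
    intro b hb hpb c hc hpc
    have hsub : (Finset.range (2 * k + 1)).image (fun n => σ ^ n • b)
        ⊆ B.filter (fun b => p ∈ b) := by
      intro d hd
      obtain ⟨n, _, rfl⟩ := Finset.mem_image.mp hd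
      rw [Finset.mem_filter]
      refine ⟨pow_smul_mem σ hσB n b hb, ?_⟩
      have := Finset.smul_mem_smul_finset (a := σ ^ n) hpb
      rwa [Equiv.Perm.smul_def, hpowfix] at this
    have hcard : ((Finset.range (2 * k + 1)).image (fun n => σ ^ n • b)).card = 2 * k + 1 := by
      rw [Finset.card_image_of_injOn, Finset.card_range]
      intro m hm n hn h
      rw [Finset.mem_coe, Finset.mem_range] at hm hn
      exact hinjpow b hb m n hm hn h
    have heq := Finset.eq_of_subset_of_card_le hsub (by rw [hcard, hB.point_degree p])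
    have : c ∈ (Finset.range (2 * k + 1)).image (fun n => σ ^ n • b) := by
      rw [heq, Finset.mem_filter]; exact ⟨hc, hpc⟩
    obtain ⟨n, hn, hnc⟩ := Finset.mem_image.mp this
    exact ⟨n, Finset.mem_range.mp hn, hnc⟩
  -- τ fixes p
  have hτσ : τ * σ = σ ^ j * τ := by
    have : τ * σ * τ * τ = σ ^ j * τ := by rw [hnorm]
    rwa [mul_assoc (τ * σ) τ τ, hτ2, mul_one] at this
  have hσj : ∀ x, τ (σ x) = (σ ^ j) (τ x) := by
    intro x
    have := congrArg (fun f : Equiv.Perm V => f x) hτσ
    simpa using this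
  have hjinv : τ * σ ^ j * τ = σ := by
    rw [← hnorm]
    rw [show τ * (τ * σ * τ) * τ = (τ * τ) * σ * (τ * τ) by group, hτ2]; simp
  have hτp : τ p = p := by
    apply hpuniq
    have h1 : σ * τ = τ * σ ^ j := by
      have : τ * σ ^ j * τ * τ = σ * τ := by rw [hjinv]
      rw [mul_assoc (τ * σ ^ j) τ τ, hτ2, mul_one] at this
      exact this.symm
    have h2 := congrArg (fun f : Equiv.Perm V => f p) h1
    simp only [Equiv.Perm.mul_apply] at h2
    rw [h2, hpowfix]
  -- j² ≡ 1
  have hj2 : σ ^ (j * j) = σ := by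
    have h1 : (τ * σ * τ) ^ j = τ * σ ^ j * τ := by
      have hinv : τ⁻¹ = τ := (eq_inv_of_mul_eq_one_left hτ2).symm
      have h0 := conj_pow (a := τ) (b := σ) (i := j)
      rwa [hinv] at h0
    rw [hnorm, ← pow_mul, hjinv] at h1
    exact h1
  have hjj : σ ^ j = σ ∨ σ ^ j * σ = 1 := by
    have h1 : (2 * k + 1 : ℤ) ∣ (j : ℤ) * j - 1 := by
      have h2 : σ ^ ((j : ℤ) * j - 1) = 1 := by
        rw [zpow_sub, zpow_one, ← Nat.cast_mul, zpow_natCast, hj2, mul_inv_cancel]
      have h3 := orderOf_dvd_iff_zpow_eq_one.mpr h2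
      rw [hσ] at h3
      exact_mod_cast h3
    have h4 : (2 * k + 1 : ℤ) ∣ ((j : ℤ) - 1) * (j + 1) := by
      have : ((j : ℤ) - 1) * (j + 1) = (j : ℤ) * j - 1 := by ring
      rw [this]; exact h1
    have hpi : Prime ((2 * k + 1 : ℕ) : ℤ) := Nat.prime_iff_prime_int.mp hp
    have h4' : ((2 * k + 1 : ℕ) : ℤ) ∣ ((j : ℤ) - 1) * (j + 1) := by push_cast; exact h4
    rcases hpi.dvd_or_dvd h4' with h5 | h5
    · left
      have : σ ^ ((j : ℤ) - 1) = 1 := by
        rw [← orderOf_dvd_iff_zpow_eq_one, hσ]; exact h5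
      rw [zpow_sub, zpow_one, zpow_natCast, mul_inv_eq_one] at this
      exact this
    · right
      have : σ ^ ((j : ℤ) + 1) = 1 := by
        rw [← orderOf_dvd_iff_zpow_eq_one, hσ]; exact h5
      rw [zpow_add, zpow_one, zpow_natCast] at this
      exact this
  have hodd : k % 2 = 1 := by omega
  rcases hjj with hcomm | hinvert
  · -- τ commutes with σ
    have hc : ∀ x, τ (σ x) = σ (τ x) := by intro x; rw [hσj, hcomm]
    have hcn : ∀ n : ℕ, ∀ x, τ ((σ ^ n) x) = (σ ^ n) (τ x) := by
      intro n
      induction n with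
      | zero => intro x; rfl
      | succ n ih => intro x; rw [pow_succ', Equiv.Perm.mul_apply, hc, ih, Equiv.Perm.mul_apply]
    have hne1 := card_fixed_ne_one hk4 hB (τ : V → V) hτ hτB
    have hpmem : p ∈ univ.filter (fun x => τ x = x) := by simp [hτp]
    have hpos : 0 < (univ.filter (fun x => τ x = x)).card := Finset.card_pos.mpr ⟨p, hpmem⟩
    obtain ⟨x, hx, hxp⟩ := Finset.exists_mem_ne (show 1 < (univ.filter (fun x => τ x = x)).card by
      omega) p
    rw [Finset.mem_filter] at hx
    obtain ⟨b, hb, hpb, hxb⟩ := hB.exists_block hxp.symm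
    have hτb : τ • b = b := by
      refine hB.unique_block hxp.symm (hτB b hb) ?_ ?_ hb hpb hxb
      · have := Finset.smul_mem_smul_finset (a := τ) hpb
        rwa [Equiv.Perm.smul_def, hτp] at this
      · have := Finset.smul_mem_smul_finset (a := τ) hxb
        rwa [Equiv.Perm.smul_def, hx.2] at this
    have hoddf := odd_fixed τ hτ b hτb (by rw [hB.block_size b hb]; exact hodd)
    -- a second fixed point y on b
    obtain ⟨y, hy, hyp, hyx⟩ : ∃ y ∈ b.filter (fun x => τ x = x), y ≠ p ∧ y ≠ x := by
      have h1 : p ∈ b.filter (fun x => τ x = x) := by rw [Finset.mem_filter]; exact ⟨hpb, hτp⟩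
      have h2 : x ∈ (b.filter (fun x => τ x = x)).erase p := by
        rw [Finset.mem_erase, Finset.mem_filter]; exact ⟨hxp, hxb, hx.2⟩
      have h3 : 0 < ((b.filter (fun x => τ x = x)).erase p).card := Finset.card_pos.mpr ⟨x, h2⟩
      rw [Finset.card_erase_of_mem h1] at h3
      have h4 : 0 < (((b.filter (fun x => τ x = x)).erase p).erase x).card := by
        rw [Finset.card_erase_of_mem h2, Finset.card_erase_of_mem h1]; omega
      obtain ⟨y, hy⟩ := Finset.card_pos.mp h4
      rw [Finset.mem_erase, Finset.mem_erase] at hy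
      exact ⟨y, hy.2.2, hy.2.1, hy.1⟩
    rw [Finset.mem_filter] at hy
    -- the orbits of x and y give 2(2k+1) fixed points
    have hbig : 2 * (2 * k + 1) ≤ (univ.filter (fun x => τ x = x)).card := by
      have hinjx : ∀ z, z ∈ b → z ≠ p → ∀ m ∈ Finset.range (2 * k + 1),
          ∀ n ∈ Finset.range (2 * k + 1), ∀ w, w ∈ b → w ≠ p →
          (σ ^ m) z = (σ ^ n) w → m = n ∧ z = w := by
        intro z hz hzp m hm n hn w hw hwp h
        rw [Finset.mem_range] at hm hn
        have h1 : σ ^ m • b = σ ^ n • b := by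
          have hmz : (σ ^ m) z ≠ p := by
            intro hh; apply hzp; apply (σ ^ m).injective; rw [hh, hpowfix]
          refine hB.unique_block hmz (pow_smul_mem σ hσB m b hb) ?_ ?_
            (pow_smul_mem σ hσB n b hb) ?_ ?_
          · exact Finset.smul_mem_smul_finset (a := σ ^ m) hz
          · have := Finset.smul_mem_smul_finset (a := σ ^ m) hpb
            rwa [Equiv.Perm.smul_def, hpowfix] at this
          · rw [h]; exact Finset.smul_mem_smul_finset (a := σ ^ n) hw
          · have := Finset.smul_mem_smul_finset (a := σ ^ n) hpb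
            rwa [Equiv.Perm.smul_def, hpowfix] at this
        have h2 := hinjpow b hb m n hm hn h1
        refine ⟨h2, ?_⟩
        rw [h2] at h
        exact (σ ^ n).injective h
      have hdisj : Disjoint ((Finset.range (2 * k + 1)).image (fun n => (σ ^ n) x))
          ((Finset.range (2 * k + 1)).image (fun n => (σ ^ n) y)) := by
        rw [Finset.disjoint_left]
        intro z hz hz'
        obtain ⟨m, hm, hmz⟩ := Finset.mem_image.mp hz
        obtain ⟨n, hn, hnz⟩ := Finset.mem_image.mp hz'
        have := hinjx x hxb hxp m hm n hn y hy.1 hyp (by rw [hmz, hnz])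
        exact hyx this.2.symm
      have hsub : ((Finset.range (2 * k + 1)).image (fun n => (σ ^ n) x)) ∪
          ((Finset.range (2 * k + 1)).image (fun n => (σ ^ n) y))
          ⊆ univ.filter (fun x => τ x = x) := by
        intro z hz
        rw [Finset.mem_filter]
        refine ⟨Finset.mem_univ z, ?_⟩
        rcases Finset.mem_union.mp hz with h | h
        · obtain ⟨m, _, rfl⟩ := Finset.mem_image.mp h
          rw [hcn, hx.2]
        · obtain ⟨m, _, rfl⟩ := Finset.mem_image.mp h
          rw [hcn, hy.2]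
      have h1 := Finset.card_le_card hsub
      rw [Finset.card_union_of_disjoint hdisj, Finset.card_image_of_injOn,
        Finset.card_image_of_injOn, Finset.card_range] at h1
      · omega
      · intro m hm n hn h
        exact (hinjx y hy.1 hyp m hm n hn y hy.1 hyp h).1
      · intro m hm n hn h
        exact (hinjx x hxb hxp m hm n hn x hxb hxp h).1
    have hle := card_fixed_le (by omega) hB τ hτ1 hτ hτB
    omega
  · -- τ inverts σ
    have hc : ∀ x, σ (τ (σ x)) = τ x := by
      intro x
      rw [hσj]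
      have h1 : σ * σ ^ j = 1 := by
        have : σ * σ ^ j = σ ^ j * σ := by rw [← pow_succ', ← pow_succ]
        rw [this]; exact hinvert
      have h2 := congrArg (fun f : Equiv.Perm V => f (τ x)) h1
      simpa using h2
    have hcn : ∀ n : ℕ, ∀ x, (σ ^ n) (τ ((σ ^ n) x)) = τ x := by
      intro n
      induction n with
      | zero => intro x; rfl
      | succ n ih =>
        intro x
        rw [pow_succ', Equiv.Perm.mul_apply, Equiv.Perm.mul_apply]
        have h1 : (σ ^ n) (τ (σ ((σ ^ n) x))) = (σ ^ n) (τ ((σ ^ n) (σ x))) := by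
          congr 2
          have : σ ^ n * σ = σ * σ ^ n := by rw [← pow_succ', ← pow_succ]
          have h2 := congrArg (fun f : Equiv.Perm V => f x) this
          simpa using h2.symm
        rw [h1, ih, hc]
    have hcb : ∀ n : ℕ, ∀ b : Finset V, σ ^ n • (τ • (σ ^ n • b)) = τ • b := by
      intro n b
      ext x
      rw [← mul_smul, ← mul_smul]
      have : σ ^ n * (τ * σ ^ n) = τ := by
        ext x; exact hcn n x
      rw [← mul_assoc] at this
      rw [this]
    -- fixed blocks in a σ-orbit
    have honly : ∀ b ∈ B, τ • b = b → ∀ n : ℕ, n < 2 * k + 1 → τ • (σ ^ n • b) = σ ^ n • b →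
        n = 0 := by
      intro b hb hτb n hn hτn
      have h1 := hcb n b
      rw [hτn, hτb, ← mul_smul, ← pow_add] at h1
      have h2 := hsemi b hb _ h1
      rcases Nat.eq_zero_or_pos n with h3 | h3
      · exact h3
      · exfalso
        have hcop : Nat.Coprime (2 * k + 1) 2 := by
          rw [Nat.coprime_comm, Nat.coprime_two_left]; exact ⟨k, by ring⟩
        have h4 : (2 * k + 1) ∣ 2 * n := by
          rw [show 2 * n = n + n by ring]; exact h2
        have h5 := hcop.dvd_of_dvd_mul_left h4
        have := Nat.le_of_dvd h3 h5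
        omega
    -- the fixed blocks missing p
    set F' := B.filter (fun b => p ∉ b ∧ τ • b = b) with hF'
    have hF'le : F'.card ≤ 2 * k - 2 := by
      have hmaps : ∀ q ∈ F' ×ˢ Finset.range (2 * k + 1),
          σ ^ q.2 • q.1 ∈ B.filter (fun b => p ∉ b) := by
        intro q hq
        rw [Finset.mem_product, hF', Finset.mem_filter] at hq
        rw [Finset.mem_filter]
        refine ⟨pow_smul_mem σ hσB _ _ hq.1.1, fun hpm => hq.1.2.1 ?_⟩
        obtain ⟨y, hy, hyp⟩ := Finset.mem_smul_finset.mp hpm
        have : y = p := (σ ^ q.2).injective (by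
          rw [hpowfix]; exact hyp)
        rwa [← this]
      have hinj : Set.InjOn (fun q : Finset V × ℕ => σ ^ q.2 • q.1)
          (F' ×ˢ Finset.range (2 * k + 1) : Finset _) := by
        have key : ∀ b ∈ F', ∀ c ∈ F', ∀ m n : ℕ, m ≤ n → n < 2 * k + 1 →
            σ ^ m • b = σ ^ n • c → m = n ∧ b = c := by
          intro b hb c hc' m n hmn hn h
          rw [hF', Finset.mem_filter] at hb hc'
          have h1 : b = σ ^ (n - m) • c := by
            have h2 : σ ^ n = σ ^ m * σ ^ (n - m) := by rw [← pow_add]; congr 1; omega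
            rw [h2, mul_smul] at h
            exact MulAction.injective (σ ^ m) h
          have h3 : n - m = 0 := by
            refine honly c hc'.1 hc'.2.2 (n - m) (by omega) ?_
            rw [← h1]; exact hb.2.2
          refine ⟨by omega, ?_⟩
          rw [h1, h3, pow_zero, one_smul]
        intro q hq q' hq' h
        rw [Finset.mem_coe, Finset.mem_product, Finset.mem_range] at hq hq'
        rcases le_total q.2 q'.2 with h1 | h1
        · have := key q.1 hq.1 q'.1 hq'.1 q.2 q'.2 h1 hq'.2 h
          exact Prod.ext this.2 this.1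
        · have := key q'.1 hq'.1 q.1 hq.1 q'.2 q.2 h1 hq.2 h.symm
          exact Prod.ext this.2.symm this.1.symm
      have h1 := Finset.card_le_card_of_injOn _ hmaps hinj
      rw [Finset.card_product, Finset.card_range] at h1
      have h2 := Finset.card_filter_add_card_filter_not (s := B) (fun b => p ∈ b)
      rw [hB.point_degree p, hB.card_blocks] at h2
      have h3 : (B.filter (fun b => ¬ p ∈ b)).card = (2 * k - 2) * (2 * k + 1) := by
        obtain ⟨m, rfl⟩ : ∃ m, k = m + 1 := ⟨k - 1, by omega⟩
        have e1 : 2 * (m + 1) - 2 = 2 * m := by omega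
        rw [e1]
        have e2 : 4 * (m + 1) ^ 2 = 2 * m * (2 * (m + 1) + 1) + (2 * (m + 1) + 1) + 1 := by ring
        omega
      rw [h3] at h1
      exact Nat.le_of_mul_le_mul_right h1 (by omega)
    -- exactly one fixed block through p
    obtain ⟨b₁, hb₁⟩ := Finset.card_pos.mp (show 0 < (B.filter (fun b => p ∈ b)).card by
      rw [hB.point_degree p]; omega)
    rw [Finset.mem_filter] at hb₁
    have hτb₁ : p ∈ τ • b₁ := by
      have := Finset.smul_mem_smul_finset (a := τ) hb₁.2
      rwa [Equiv.Perm.smul_def, hτp] at this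
    obtain ⟨n, hn, hnb⟩ := htrans b₁ hb₁.1 hb₁.2 (τ • b₁) (hτB _ hb₁.1) hτb₁
    -- b₀ = σ^m b₁ with 2m ≡ n
    obtain ⟨b₀, hb₀, hpb₀, hτb₀⟩ : ∃ b₀ ∈ B, p ∈ b₀ ∧ τ • b₀ = b₀ := by
      obtain ⟨m, hm⟩ : ∃ m : ℕ, σ ^ (2 * m) = σ ^ n := by
        refine ⟨n * (k + 1), ?_⟩
        have : 2 * (n * (k + 1)) = (2 * k + 1) * n + n := by ring
        rw [this, pow_add, pow_mul, hσp, one_pow, one_mul]
      refine ⟨σ ^ m • b₁, pow_smul_mem σ hσB m b₁ hb₁.1, ?_, ?_⟩
      · have := Finset.smul_mem_smul_finset (a := σ ^ m) hb₁.2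
        rwa [Equiv.Perm.smul_def, hpowfix] at this
      · have h1 := hcb m b₁
        have h2 : σ ^ m • (σ ^ m • b₁) = σ ^ n • b₁ := by
          rw [← mul_smul, ← pow_add, ← two_mul, hm]
        rw [← hnb, ← h2] at h1
        exact MulAction.injective (σ ^ m) h1
    have huniq₀ : ∀ c ∈ B, p ∈ c → τ • c = c → c = b₀ := by
      intro c hc' hpc hτc
      obtain ⟨m, hm, hmc⟩ := htrans b₀ hb₀ hpb₀ c hc' hpc
      have h1 := honly b₀ hb₀ hτb₀ m hm (by rw [hmc]; exact hτc)
      rw [← hmc, h1, pow_zero, one_smul]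
    -- all fixed points are on b₀
    have hfixb₀ : ∀ x, τ x = x → x ∈ b₀ := by
      intro x hx
      by_cases hxp : x = p
      · rw [hxp]; exact hpb₀
      · obtain ⟨c, hc', hpc, hxc⟩ := hB.exists_block (fun h => hxp h.symm : p ≠ x)
        have hτc : τ • c = c := by
          refine hB.unique_block (fun h => hxp h.symm : p ≠ x) (hτB c hc') ?_ ?_ hc' hpc hxc
          · have := Finset.smul_mem_smul_finset (a := τ) hpc
            rwa [Equiv.Perm.smul_def, hτp] at this
          · have := Finset.smul_mem_smul_finset (a := τ) hxc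
            rwa [Equiv.Perm.smul_def, hx] at this
        rw [← huniq₀ c hc' hpc hτc]; exact hxc
    -- count the points off b₀
    have hcount : (univ \ b₀ : Finset V).card = (k - 1) * F'.card := by
      have h1 : ∀ x ∈ (univ \ b₀ : Finset V), (F'.filter (fun b => x ∈ b)).card = 1 := by
        intro x hx
        rw [Finset.mem_sdiff] at hx
        have hxτ : x ≠ τ x := fun h => hx.2 (hfixb₀ x h.symm)
        obtain ⟨c, hc', hxc, hτxc⟩ := hB.exists_block hxτ
        have hτc : τ • c = c := by
          refine hB.unique_block hxτ (hτB c hc') ?_ ?_ hc' hxc hτxc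
          · have := Finset.smul_mem_smul_finset (a := τ) hτxc
            rwa [Equiv.Perm.smul_def, hτ] at this
          · exact Finset.smul_mem_smul_finset (a := τ) hxc
        have hpc : p ∉ c := by
          intro hpc
          exact hx.2 (by rw [← huniq₀ c hc' hpc hτc]; exact hxc)
        rw [Finset.card_eq_one]
        refine ⟨c, ?_⟩
        ext d
        rw [Finset.mem_filter, hF', Finset.mem_filter, Finset.mem_singleton]
        constructor
        · rintro ⟨⟨hd, _, hτd⟩, hxd⟩
          have hτxd : τ x ∈ d := by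
            have := Finset.smul_mem_smul_finset (a := τ) hxd
            rwa [hτd] at this
          exact hB.unique_block hxτ hd hxd hτxd hc' hxc hτxc
        · rintro rfl
          exact ⟨⟨hc', hpc, hτc⟩, hxc⟩
      have h2 : ∀ b ∈ F', ((univ \ b₀ : Finset V).filter (fun x => x ∈ b)).card = k - 1 := by
        intro b hb
        rw [hF', Finset.mem_filter] at hb
        have hbne : b ≠ b₀ := fun h => hb.2.1 (h ▸ hpb₀)
        have hoddf := odd_fixed τ hτ b hb.2.2 (by rw [hB.block_size b hb.1]; exact hodd)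
        have hpos : 0 < (b.filter (fun x => τ x = x)).card := by omega
        obtain ⟨z, hz⟩ := Finset.card_pos.mp hpos
        rw [Finset.mem_filter] at hz
        have hzb₀ := hfixb₀ z hz.2
        have h3 : (univ \ b₀ : Finset V).filter (fun x => x ∈ b) = b.erase z := by
          ext x
          rw [Finset.mem_filter, Finset.mem_sdiff, Finset.mem_erase]
          constructor
          · rintro ⟨⟨_, hxb₀⟩, hxb⟩
            exact ⟨fun h => hxb₀ (h ▸ hzb₀), hxb⟩
          · rintro ⟨hxz, hxb⟩
            refine ⟨⟨Finset.mem_univ x, fun hxb₀ => hbne ?_⟩, hxb⟩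
            exact hB.unique_block hxz hb.1 hxb hz.1 hb₀ hxb₀ hzb₀
        rw [h3, Finset.card_erase_of_mem hz.1, hB.block_size b hb.1]
      have h3 : ∑ x ∈ (univ \ b₀ : Finset V), (F'.filter (fun b => x ∈ b)).card
          = ∑ b ∈ F', ((univ \ b₀ : Finset V).filter (fun x => x ∈ b)).card := by
        simp only [Finset.card_filter]
        exact Finset.sum_comm
      rw [Finset.sum_congr rfl h1, Finset.sum_congr rfl h2] at h3
      simp only [Finset.sum_const, smul_eq_mul, mul_one] at h3
      rw [h3, mul_comm]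
    rw [Finset.card_sdiff_of_subset (Finset.subset_univ b₀), Finset.card_univ, hv,
      hB.block_size b₀ hb₀] at hcount
    have h4 : k * (2 * k - 1) - k = (k - 1) * (2 * k) := by
      obtain ⟨m, rfl⟩ : ∃ m, k = m + 1 := ⟨k - 1, by omega⟩
      have e1 : 2 * (m + 1) - 1 = 2 * m + 1 := by omega
      have e2 : m + 1 - 1 = m := by omega
      rw [e1, e2]
      have e3 : (m + 1) * (2 * m + 1) = m * (2 * (m + 1)) + (m + 1) := by ring
      omega
    rw [h4] at hcount
    have h5 := Nat.eq_of_mul_eq_mul_left (show 0 < k - 1 by omega) hcount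
    omega

end Run7.h570
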