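import Mathlib
import Pool.Agent.Run7.h570.Design
import Pool.Agent.Run7.h570.Orbits
import Pool.Agent.Run7.h570.Reverse
import Pool.Agent.Run7.h570.Normaliser
import Pool.Agent.Run7.h570.Sigma

/-!
Two-groups of automorphisms normalised by an automorphism of prime order `2k+1`.
-/

namespace Run7.h570

open Finset Pointwise

variable {V : Type} [Fintype V] [DecidableEq V] {k : ℕ} {B : Finset (Finset V)}

omit [Fintype V] in
/-- Orbit counting on an invariant set. -/
lemma card_le_sum_stab (S : Subgroup (Equiv.Perm V)) (T : Finset (Equiv.Perm V))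
    (hT : ∀ s, s ∈ T ↔ s ∈ S) (O : Finset V) (hO : ∀ s ∈ S, ∀ x ∈ O, s x ∈ O)
    (hne : O.Nonempty) : T.card ≤ ∑ y ∈ O, (T.filter (fun s => s y = y)).card := by
  classical
  obtain ⟨x, hx⟩ := hne
  have h1 : T.card = ∑ y ∈ O, (T.filter (fun s => s x = y)).card :=
    Finset.card_eq_sum_card_fiberwise (fun s hs => hO s ((hT s).mp hs) x hx)
  rw [h1]
  refine Finset.sum_le_sum (fun y hy => ?_)
  by_cases hex : ∃ s₀ ∈ T, s₀ x = y
  · obtain ⟨s₀, hs₀, hs₀x⟩ := hex
    refine Finset.card_le_card_of_injOn (fun s => s * s₀⁻¹) ?_ ?_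
    · intro s hs
      rw [Finset.mem_coe, Finset.mem_filter] at hs
      rw [Finset.mem_coe, Finset.mem_filter]
      refine ⟨(hT _).mpr (S.mul_mem ((hT s).mp hs.1) (S.inv_mem ((hT s₀).mp hs₀))), ?_⟩
      have h2 : s₀⁻¹ y = x := by rw [← hs₀x]; exact s₀.symm_apply_apply x
      rw [Equiv.Perm.mul_apply, h2, hs.2]
    · intro s _ s' _ h
      exact mul_right_cancel h
  · have h2 : T.filter (fun s => s x = y) = ∅ := by
      rw [Finset.filter_eq_empty_iff]
      intro s hs hsx
      exact hex ⟨s, hs, hsx⟩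
    rw [h2, Finset.card_empty]
    exact Nat.zero_le _

/-- The main counting inequality. -/
lemma group_bound (hk : 2 ≤ k) (hB : IsDesign k B) (S : Subgroup (Equiv.Perm V))
    (T : Finset (Equiv.Perm V)) (hT : ∀ s, s ∈ T ↔ s ∈ S) (F : Finset V) (hFne : F.Nonempty)
    (I : Finset (Finset V)) (hI : 2 * k + 1 ≤ I.card)
    (hIinv : ∀ L ∈ I, ∀ s ∈ S, ∀ x ∈ L \ F, s x ∈ L \ F) (hIne : ∀ L ∈ I, (L \ F).Nonempty)
    (hdisj : ∀ L ∈ I, ∀ L' ∈ I, L ≠ L' → Disjoint (L \ F) (L' \ F))
    (hbound : ∀ s ∈ S, s ≠ 1 → ((univ.filter (fun x => s x = x)) \ F).card ≤ k - 1) :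
    T.card * (k + 2) ≤ 2 * k * (k - 1) := by
  classical
  have h1 : (2 * k + 1) * T.card ≤ ∑ x ∈ univ \ F, (T.filter (fun s => s x = x)).card := by
    calc (2 * k + 1) * T.card ≤ I.card * T.card := Nat.mul_le_mul_right _ hI
      _ = ∑ L ∈ I, T.card := by rw [Finset.sum_const, smul_eq_mul]
      _ ≤ ∑ L ∈ I, ∑ x ∈ L \ F, (T.filter (fun s => s x = x)).card :=
          Finset.sum_le_sum (fun L hL => card_le_sum_stab S T hT (L \ F) (hIinv L hL) (hIne L hL))
      _ = ∑ x ∈ I.biUnion (fun L => L \ F), (T.filter (fun s => s x = x)).card := by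
          rw [Finset.sum_biUnion]
          intro L hL L' hL' hne
          exact hdisj L hL L' hL' hne
      _ ≤ ∑ x ∈ univ \ F, (T.filter (fun s => s x = x)).card := by
          refine Finset.sum_le_sum_of_subset ?_
          intro x hx
          rw [Finset.mem_biUnion] at hx
          obtain ⟨L, _, hxL⟩ := hx
          rw [Finset.mem_sdiff] at hxL ⊢
          exact ⟨Finset.mem_univ x, hxL.2⟩
  have h2 : ∑ x ∈ univ \ F, (T.filter (fun s => s x = x)).card
      = ∑ s ∈ T, ((univ.filter (fun x => s x = x)) \ F).card := by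
    have h3 : ∀ s ∈ T, ((univ.filter (fun x => s x = x)) \ F).card
        = ∑ x ∈ univ \ F, if s x = x then 1 else 0 := by
      intro s _
      rw [← Finset.card_filter]
      congr 1
      ext x
      simp only [Finset.mem_sdiff, Finset.mem_filter, Finset.mem_univ, true_and]
      tauto
    rw [Finset.sum_congr rfl h3, Finset.sum_comm]
    refine Finset.sum_congr rfl (fun x _ => ?_)
    rw [Finset.card_filter]
  have h1T : (1 : Equiv.Perm V) ∈ T := (hT 1).mpr S.one_mem
  have h4 : ∑ s ∈ T, ((univ.filter (fun x => s x = x)) \ F).card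
      ≤ k * (2 * k - 1) - 1 + (T.card - 1) * (k - 1) := by
    rw [← Finset.add_sum_erase T _ h1T]
    refine Nat.add_le_add ?_ ?_
    · have h5 : ((univ.filter (fun x => (1 : Equiv.Perm V) x = x)) \ F).card
          = Fintype.card V - F.card := by
        have : univ.filter (fun x : V => (1 : Equiv.Perm V) x = x) = univ := by
          ext x; simp
        rw [this, Finset.card_sdiff_of_subset (Finset.subset_univ F), Finset.card_univ]
      rw [h5, hB.card_points]
      have := Finset.card_pos.mpr hFne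
      omega
    · calc ∑ s ∈ T.erase 1, ((univ.filter (fun x => s x = x)) \ F).card
          ≤ ∑ s ∈ T.erase 1, (k - 1) := by
            refine Finset.sum_le_sum (fun s hs => ?_)
            rw [Finset.mem_erase] at hs
            exact hbound s ((hT s).mp hs.2) hs.1
        _ = (T.card - 1) * (k - 1) := by
            rw [Finset.sum_const, Finset.card_erase_of_mem h1T, smul_eq_mul]
  have h6 : (2 * k + 1) * T.card ≤ k * (2 * k - 1) - 1 + (T.card - 1) * (k - 1) := by
    rw [h2] at h1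
    exact le_trans h1 h4
  have hTpos : 0 < T.card := Finset.card_pos.mpr ⟨1, h1T⟩
  obtain ⟨m, rfl⟩ : ∃ m, k = m + 2 := ⟨k - 2, by omega⟩
  obtain ⟨n, hn⟩ : ∃ n, T.card = n + 1 := ⟨T.card - 1, by omega⟩
  rw [hn] at h6 ⊢
  have e1 : m + 2 - 1 = m + 1 := by omega
  have e2 : 2 * (m + 2) - 1 = 2 * m + 3 := by omega
  have e3 : n + 1 - 1 = n := by omega
  rw [e1, e2, e3] at h6
  rw [e1]
  have e4 : (m + 2) * (2 * m + 3) - 1 = 2 * m * m + 7 * m + 5 := by
    have : (m + 2) * (2 * m + 3) = 2 * m * m + 7 * m + 6 := by ring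
    omega
  rw [e4] at h6
  nlinarith

/-- An involution fixing `p` and all blocks through `p` has at most `k` fixed points. -/
lemma card_fixed_le_of_central (hk : 5 ≤ k) (hodd : k % 2 = 1) (hB : IsDesign k B)
    (t : Equiv.Perm V) (ht : ∀ x, t (t x) = x) (ht1 : t ≠ 1) (htB : ∀ b ∈ B, t • b ∈ B)
    (p : V) (htp : t p = p) (hlines : ∀ b ∈ B, p ∈ b → t • b = b) :
    (univ.filter (fun x => t x = x)).card ≤ k := by
  classical
  by_contra hcon
  push Not at hcon
  have hmem : ∀ b ∈ B, t • b = b → ∀ x ∈ b, t x ∈ b := by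
    intro b _ htb x hx
    have := Finset.smul_mem_smul_finset (a := t) hx
    rwa [htb] at this
  -- a fixed block missing p is pointwise fixed
  have hfull : ∀ b ∈ B, t • b = b → p ∉ b → ∀ x ∈ b, t x = x := by
    intro b hb htb hpb x hx
    by_contra hne
    have hpx : p ≠ x := fun h => hpb (h ▸ hx)
    obtain ⟨c, hc, hpc, hxc⟩ := hB.exists_block hpx
    have htc := hlines c hc hpc
    have : b = c := hB.unique_block (fun h => hne h.symm : x ≠ t x) hb hx (hmem b hb htb x hx)
      hc hxc (hmem c hc htc x hxc)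
    exact hpb (this ▸ hpc)
  -- the block through two fixed points is fixed
  have hfix2 : ∀ b ∈ B, ∀ x ∈ b, ∀ y ∈ b, x ≠ y → t x = x → t y = y → t • b = b := by
    intro b hb x hx y hy hxy htx hty
    refine hB.unique_block hxy (htB b hb) ?_ ?_ hb hx hy
    · have := Finset.smul_mem_smul_finset (a := t) hx
      rwa [Equiv.Perm.smul_def, htx] at this
    · have := Finset.smul_mem_smul_finset (a := t) hy
      rwa [Equiv.Perm.smul_def, hty] at this
  -- two fixed points on different blocks through p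
  obtain ⟨y₁, hy₁, hy₁p⟩ := Finset.exists_mem_ne (show 1 < (univ.filter (fun x => t x = x)).card by
    omega) p
  rw [Finset.mem_filter] at hy₁
  obtain ⟨L₁, hL₁, hpL₁, hyL₁⟩ := hB.exists_block (fun h => hy₁p h.symm : p ≠ y₁)
  obtain ⟨y₂, hy₂, hy₂L⟩ : ∃ y₂ ∈ univ.filter (fun x => t x = x), y₂ ∉ L₁ := by
    by_contra hall
    push Not at hall
    have := Finset.card_le_card (show univ.filter (fun x => t x = x) ⊆ L₁ from hall)
    rw [hB.block_size L₁ hL₁] at this
    omega
  rw [Finset.mem_filter] at hy₂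
  have hy₁₂ : y₁ ≠ y₂ := fun h => hy₂L (h ▸ hyL₁)
  obtain ⟨b, hb, hy₁b, hy₂b⟩ := hB.exists_block hy₁₂
  have htb := hfix2 b hb y₁ hy₁b y₂ hy₂b hy₁₂ hy₁.2 hy₂.2
  have hpb : p ∉ b := by
    intro hpb
    have : b = L₁ := hB.unique_block hy₁p hb hy₁b hpb hL₁ hyL₁ hpL₁
    exact hy₂L (this ▸ hy₂b)
  have hbfix := hfull b hb htb hpb
  -- a third fixed point on L₁
  have hoddL := odd_fixed t ht L₁ (hlines L₁ hL₁ hpL₁) (by rw [hB.block_size L₁ hL₁]; exact hodd)
  obtain ⟨z, hzL, hzt, hzp, hzy⟩ : ∃ z ∈ L₁, t z = z ∧ z ≠ p ∧ z ≠ y₁ := by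
    have h1 : p ∈ L₁.filter (fun x => t x = x) := by rw [Finset.mem_filter]; exact ⟨hpL₁, htp⟩
    have h2 : y₁ ∈ (L₁.filter (fun x => t x = x)).erase p := by
      rw [Finset.mem_erase, Finset.mem_filter]; exact ⟨hy₁p, hyL₁, hy₁.2⟩
    have h3 : 0 < ((L₁.filter (fun x => t x = x)).erase p).card := Finset.card_pos.mpr ⟨_, h2⟩
    rw [Finset.card_erase_of_mem h1] at h3
    have h4 : 0 < (((L₁.filter (fun x => t x = x)).erase p).erase y₁).card := by
      rw [Finset.card_erase_of_mem h2, Finset.card_erase_of_mem h1]; omega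
    obtain ⟨z, hz⟩ := Finset.card_pos.mp h4
    rw [Finset.mem_erase, Finset.mem_erase, Finset.mem_filter] at hz
    exact ⟨z, hz.2.2.1, hz.2.2.2, hz.2.1, hz.1⟩
  have hzb : z ∉ b := by
    intro hzb
    have : b = L₁ := hB.unique_block hzy hb hzb hy₁b hL₁ hzL hyL₁
    exact hpb (this ▸ hpL₁)
  -- blocks through z and the points of b other than y₁
  have hex : ∀ y ∈ b.erase y₁, ∃ c ∈ B, z ∈ c ∧ y ∈ c := by
    intro y hy
    rw [Finset.mem_erase] at hy
    exact hB.exists_block (fun h => hzb (h ▸ hy.2))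
  choose! c hcB hzc hyc using hex
  have hcfix : ∀ y ∈ b.erase y₁, ∀ x ∈ c y, t x = x := by
    intro y hy
    have hy' := hy
    rw [Finset.mem_erase] at hy'
    have hzy' : z ≠ y := fun h => hzb (h ▸ hy'.2)
    have htc := hfix2 (c y) (hcB y hy) z (hzc y hy) y (hyc y hy) hzy' hzt (hbfix y hy'.2)
    refine hfull (c y) (hcB y hy) htc ?_
    intro hpc
    have h1 : c y = L₁ := hB.unique_block hzp (hcB y hy) (hzc y hy) hpc hL₁ hzL hpL₁
    have h2 : y ∈ L₁ := h1 ▸ hyc y hy
    have h3 : b = L₁ := hB.unique_block hy'.1 hb hy'.2 hy₁b hL₁ h2 hyL₁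
    exact hpb (h3 ▸ hpL₁)
  have hsub : (b.erase y₁).biUnion (fun y => (c y).erase z) ⊆ univ.filter (fun x => t x = x) := by
    intro x hx
    rw [Finset.mem_biUnion] at hx
    obtain ⟨y, hy, hxy⟩ := hx
    rw [Finset.mem_filter]
    exact ⟨Finset.mem_univ x, hcfix y hy x (Finset.mem_of_mem_erase hxy)⟩
  have hcard : ((b.erase y₁).biUnion (fun y => (c y).erase z)).card = (k - 1) * (k - 1) := by
    rw [Finset.card_biUnion]
    · rw [Finset.sum_congr rfl (g := fun _ => k - 1)]
      · rw [Finset.sum_const, Finset.card_erase_of_mem hy₁b, hB.block_size b hb, smul_eq_mul]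
      · intro y hy
        rw [Finset.card_erase_of_mem (hzc y hy), hB.block_size _ (hcB y hy)]
    · intro y hy y' hy' hne
      rw [Finset.mem_coe] at hy hy'
      show Disjoint ((c y).erase z) ((c y').erase z)
      rw [Finset.disjoint_left]
      intro x hx hx'
      rw [Finset.mem_erase] at hx hx'
      have h1 : c y = c y' := hB.unique_block hx.1 (hcB y hy) hx.2 (hzc y hy) (hcB y' hy') hx'.2
        (hzc y' hy')
      have h2 : y' ∈ c y := h1 ▸ hyc y' hy'
      have h3 : c y = b := hB.unique_block hne (hcB y hy) (hyc y hy) h2 hb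
        (Finset.mem_of_mem_erase hy) (Finset.mem_of_mem_erase hy')
      exact hzb (h3 ▸ hzc y hy)
  have h1 := Finset.card_le_card hsub
  have h2 := card_fixed_le (by omega) hB t ht1 ht htB
  rw [hcard] at h1
  have h3 : (k - 1) * (k - 1) ≤ 3 * k - 2 := le_trans h1 h2
  obtain ⟨m, rfl⟩ : ∃ m, k = m + 5 := ⟨k - 5, by omega⟩
  have e1 : m + 5 - 1 = m + 4 := by omega
  have e2 : 3 * (m + 5) - 2 = 3 * m + 13 := by omega
  rw [e1, e2] at h3
  nlinarith

/-- A nontrivial element of a two-group has a power which is an involution. -/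
lemma exists_involution_pow (S : Subgroup (Equiv.Perm V)) (hS : IsPGroup 2 S)
    (s : Equiv.Perm V) (hs : s ∈ S) (hs1 : s ≠ 1) :
    ∃ n : ℕ, s ^ n ≠ 1 ∧ s ^ n * s ^ n = 1 := by
  obtain ⟨m, hm⟩ := hS ⟨s, hs⟩
  have hm' : s ^ 2 ^ m = 1 := congrArg Subtype.val hm
  -- least exponent
  classical
  have hex : ∃ m : ℕ, s ^ 2 ^ m = 1 := ⟨m, hm'⟩
  have h1 := Nat.find_spec hex
  have h2 : 0 < Nat.find hex := by
    rcases Nat.eq_zero_or_pos (Nat.find hex) with h | h
    · rw [h, pow_zero, pow_one] at h1; exact absurd h1 hs1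
    · exact h
  refine ⟨2 ^ (Nat.find hex - 1), Nat.find_min hex (by omega), ?_⟩
  rw [← pow_add]
  have h3 : 2 ^ (Nat.find hex - 1) + 2 ^ (Nat.find hex - 1) = 2 ^ Nat.find hex := by
    obtain ⟨n, hn⟩ : ∃ n, Nat.find hex = n + 1 := ⟨Nat.find hex - 1, by omega⟩
    rw [hn, Nat.add_sub_cancel, pow_succ]; ring
  rw [h3, h1]

end Run7.h570
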