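import Mathlib
import Pool.Agent.Run7.h570.Design
import Pool.Agent.Run7.h570.Orbits

/-!
Abelian groups acting regularly on the points, `k` even.
-/

namespace Run7.h570

open Finset Pointwise

/-- A finite abelian group with an element of order two has a subgroup of index two. -/
lemma exists_index_two {G : Type} [CommGroup G] [Finite G] (u : G) (hu : u ≠ 1)
    (huu : u * u = 1) : ∃ N : Subgroup G, N.index = 2 := by
  classical
  let sqHom : G →* G := powMonoidHom 2
  have hninj : ¬ Function.Injective sqHom := by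
    intro hinj
    apply hu
    apply hinj
    show u ^ 2 = 1 ^ 2
    rw [sq, huu, one_pow]
  have hnsurj : ¬ Function.Surjective sqHom := fun h => hninj (Finite.injective_iff_surjective.mpr h)
  have hne : sqHom.range ≠ ⊤ := fun h => hnsurj (MonoidHom.range_eq_top.mp h)
  obtain ⟨N, hN, hle⟩ := (eq_top_or_exists_le_coatom sqHom.range).resolve_left hne
  refine ⟨N, ?_⟩
  obtain ⟨g, hg⟩ : ∃ g : G, g ∉ N := by
    by_contra hcon
    push Not at hcon
    exact hN.1 ((Subgroup.eq_top_iff' N).mpr hcon)
  have hsq : ∀ x : G, x * x ∈ N := by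
    intro x
    apply hle
    exact ⟨x, by show x ^ 2 = x * x; rw [sq]⟩
  rw [Subgroup.index_eq_two_iff']
  -- the union of N and gN is everything
  have hcov : ∀ x : G, x ∈ N ∨ g * x ∈ N := by
    intro x
    let K : Subgroup G :=
      { carrier := {x | x ∈ N ∨ g * x ∈ N}
        one_mem' := Or.inl N.one_mem
        mul_mem' := by
          rintro a b (ha | ha) (hb | hb)
          · exact Or.inl (N.mul_mem ha hb)
          · right
            have : g * (a * b) = a * (g * b) := by rw [mul_left_comm]
            rw [this]; exact N.mul_mem ha hb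
          · right
            have : g * (a * b) = (g * a) * b := by rw [mul_assoc]
            rw [this]; exact N.mul_mem ha hb
          · left
            have : a * b = (g * g)⁻¹ * ((g * a) * (g * b)) := by
              rw [mul_mul_mul_comm, inv_mul_cancel_left]
            rw [this]
            exact N.mul_mem (N.inv_mem (hsq g)) (N.mul_mem ha hb)
        inv_mem' := by
          rintro a (ha | ha)
          · exact Or.inl (N.inv_mem ha)
          · right
            have : g * a⁻¹ = (g * g) * (g * a)⁻¹ := by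
              rw [mul_inv_rev, mul_comm a⁻¹ g⁻¹, mul_assoc, mul_inv_cancel_left]
            rw [this]
            exact N.mul_mem (hsq g) (N.inv_mem ha) }
    have hNK : N ≤ K := fun x hx => Or.inl hx
    have hgK : g⁻¹ ∈ K := Or.inr (by rw [mul_inv_cancel]; exact N.one_mem)
    have hKtop : K = ⊤ := by
      rcases lt_or_eq_of_le hNK with h | h
      · exact hN.2 K h
      · exfalso; rw [← h] at hgK; exact hg ((N.inv_mem_iff).mp hgK)
    have : x ∈ K := by rw [hKtop]; exact Subgroup.mem_top x
    exact this
  refine ⟨g, fun b => ?_⟩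
  rcases hcov b with hb | hb
  · right
    refine ⟨hb, fun hgb => hg ?_⟩
    have := N.mul_mem hgb (N.inv_mem hb)
    rwa [mul_inv_cancel_right] at this
  · left
    refine ⟨hb, fun hbN => hg ?_⟩
    have := N.mul_mem hb (N.inv_mem hbN)
    rwa [mul_inv_cancel_right] at this

theorem abelianRegular_sum_two_squares {G V : Type} [CommGroup G] [Fintype V] [DecidableEq V]
    [MulAction G V] {k : ℕ} (hk : Even k) {B : Finset (Finset V)} (hB : IsDesign k B)
    (hinv : ∀ g : G, ∀ b ∈ B, b.image (fun x => g • x) ∈ B)
    (hreg : ∀ x y : V, ∃! g : G, g • x = y) : ∃ a b : ℕ, k = a ^ 2 + b ^ 2 := by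
  classical
  have hinv' : ∀ g : G, ∀ b ∈ B, g • b ∈ B := hinv
  rcases Nat.eq_zero_or_pos k with hk0 | hk0
  · exact ⟨0, 0, by simp [hk0]⟩
  have hk2 : 2 ≤ k := by obtain ⟨m, hm⟩ := hk; omega
  have hv := hB.card_points
  have hvpos : 0 < Fintype.card V := by rw [hv]; exact Nat.mul_pos hk0 (by omega)
  obtain ⟨x₀⟩ := Fintype.card_pos_iff.mp hvpos
  have hinj : ∀ x : V, ∀ g h : G, g • x = h • x → g = h := by
    intro x g h hgh
    exact (hreg x (h • x)).unique hgh rfl
  have : Finite G := Finite.of_injective (fun g : G => g • x₀) (fun g h => hinj x₀ g h)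
  have : Fintype G := Fintype.ofFinite G
  have himg : univ.image (fun g : G => g • x₀) = univ := by
    ext x
    simp only [Finset.mem_image, Finset.mem_univ, true_and, iff_true]
    obtain ⟨g, hg, _⟩ := hreg x₀ x
    exact ⟨g, hg⟩
  have hcardG : Fintype.card G = k * (2 * k - 1) := by
    have h1 : (univ.image (fun g : G => g • x₀)).card = Fintype.card G := by
      rw [Finset.card_image_of_injective _ (fun g h => hinj x₀ g h), Finset.card_univ]
    rw [himg, Finset.card_univ, hv] at h1
    exact h1.symm
  -- an involution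
  obtain ⟨u, hu⟩ : ∃ u : G, orderOf u = 2 := by
    have : Fact (Nat.Prime 2) := ⟨Nat.prime_two⟩
    apply exists_prime_orderOf_dvd_card 2
    rw [hcardG]
    exact Dvd.dvd.mul_right hk.two_dvd _
  have hu1 : u ≠ 1 := by
    intro h; rw [h, orderOf_one] at hu; omega
  have huu : u * u = 1 := by
    have := pow_orderOf_eq_one u
    rwa [hu, sq] at this
  obtain ⟨N, hN⟩ := exists_index_two u hu1 huu
  -- sign function
  let h : V → ℤ := fun x => ∑ g : G, if g • x₀ = x then sgn N g else 0
  have hhg : ∀ g : G, h (g • x₀) = sgn N g := by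
    intro g
    show ∑ g' : G, (if g' • x₀ = g • x₀ then sgn N g' else 0) = sgn N g
    rw [Finset.sum_eq_single g]
    · simp
    · intro g' _ hne'
      rw [if_neg (fun hh => hne' (hinj x₀ _ _ hh))]
    · intro hh; exact absurd (Finset.mem_univ g) hh
  have hsurj : ∀ x : V, ∃ g : G, x = g • x₀ := by
    intro x
    obtain ⟨g, hg, _⟩ := hreg x₀ x
    exact ⟨g, hg.symm⟩
  have hact : ∀ a : G, ∀ x : V, h (a • x) = sgn N a * h x := by
    intro a x
    obtain ⟨g, rfl⟩ := hsurj x
    rw [← mul_smul, hhg, hhg, sgn_mul hN]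
  obtain ⟨c, hc⟩ : ∃ c : G, c ∉ N := by
    by_contra hcon
    push Not at hcon
    have : N = ⊤ := (Subgroup.eq_top_iff' N).mpr hcon
    rw [this, Subgroup.index_top] at hN
    omega
  have hsgnc : ∀ c : G, c ∉ N → sgn N c = -1 := by
    intro c hc; unfold sgn; rw [if_neg hc]
  have hsumzero : ∀ b : Finset V, ∀ c : G, c ∉ N → c • b = b → ∑ x ∈ b, h x = 0 := by
    intro b c hc hcb
    have h1 : ∑ x ∈ b, h x = ∑ x ∈ c • b, h x := by rw [hcb]
    have h2 : ∑ x ∈ c • b, h x = ∑ x ∈ b, h (c • x) := by
      show ∑ x ∈ b.image (fun x => c • x), h x = _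
      rw [Finset.sum_image (fun x _ y _ hxy => MulAction.injective c hxy)]
    rw [h2] at h1
    simp only [hact, hsgnc c hc] at h1
    rw [← Finset.mul_sum] at h1
    omega
  have htot : ∑ x, h x = 0 := by
    refine hsumzero univ c hc ?_
    ext x; simp
  have hsqtot : ∑ x, h x ^ 2 = (Fintype.card G : ℤ) := by
    rw [← himg, Finset.sum_image (fun g _ h _ hgh => hinj x₀ g h hgh)]
    simp [hhg, sgn_sq]
  -- a nontrivial block stabiliser acts regularly on the block
  have hstab : ∀ b ∈ B, ∀ s : G, s ≠ 1 → s • b = b → ∀ x ∈ b, ∀ g : G, g • x ∈ b → g • b = b := by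
    intro b hb s hs hsb x hx g hgx
    have hsx : s • x ∈ b := by
      have := Finset.smul_mem_smul_finset (a := s) hx; rwa [hsb] at this
    have hsgx : s • (g • x) ∈ b := by
      have := Finset.smul_mem_smul_finset (a := s) hgx; rwa [hsb] at this
    have hne : g • x ≠ s • (g • x) := by
      intro hh
      exact hs (hinj (g • x) s 1 (by rw [one_smul]; exact hh.symm))
    refine hB.unique_block hne (hinv' g b hb) ?_ ?_ hb hgx hsgx
    · exact Finset.smul_mem_smul_finset hx
    · have h1 := Finset.smul_mem_smul_finset (a := g) hsx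
      have h2 : s • (g • x) = g • (s • x) := by rw [← mul_smul, ← mul_smul, mul_comm]
      rw [h2]; exact h1
  have hcardS : ∀ b ∈ B, ∀ s : G, s ≠ 1 → s • b = b → Nat.card (MulAction.stabilizer G b) = k := by
    intro b hb s hs hsb
    obtain ⟨x, hx⟩ := Finset.card_pos.mp (show 0 < b.card by rw [hB.block_size b hb]; exact hk0)
    have h1 : ((univ.filter (fun g : G => g • b = b)).image (fun g : G => g • x)) = b := by
      ext y
      simp only [Finset.mem_image, Finset.mem_filter, Finset.mem_univ, true_and]
      constructor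
      · rintro ⟨g, hg, rfl⟩
        have := Finset.smul_mem_smul_finset (a := g) hx
        rwa [hg] at this
      · intro hyb
        obtain ⟨g, hg, _⟩ := hreg x y
        exact ⟨g, hstab b hb s hs hsb x hx g (by rw [hg]; exact hyb), hg⟩
    have h2 := congrArg Finset.card h1
    rw [Finset.card_image_of_injOn (fun g _ g' _ hgg => hinj x g g' hgg),
      hB.block_size b hb] at h2
    rw [← h2, Nat.card_eq_fintype_card, Fintype.card_subtype]
    congr 1
  -- the stabiliser contains u
  have hustab : ∀ b ∈ B, ∀ s : G, s ≠ 1 → s • b = b → u • b = b := by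
    intro b hb s hs hsb
    have h1 := hcardS b hb s hs hsb
    have h2 := Subgroup.card_mul_index (MulAction.stabilizer G b)
    rw [h1, Nat.card_eq_fintype_card, hcardG] at h2
    have h3 := Nat.eq_of_mul_eq_mul_left hk0 h2
    -- u ^ index ∈ stabiliser
    have h4 : u ^ (MulAction.stabilizer G b).index ∈ MulAction.stabilizer G b :=
      Subgroup.pow_index_mem _ u
    rw [h3] at h4
    have h5 : u ^ (2 * k - 1) = u := by
      obtain ⟨m, hm⟩ : ∃ m, 2 * k - 1 = 2 * m + 1 := ⟨k - 1, by omega⟩
      rw [hm, pow_succ, pow_mul, sq, huu, one_pow, one_mul]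
    rw [h5] at h4
    exact MulAction.mem_stabilizer_iff.mp h4
  -- sum over the blocks fixed by u vanishes
  have hfix0 : ∀ b ∈ B, u • b = b → ∑ x ∈ b, h x = 0 := by
    intro b hb hub
    by_contra hcon
    have hsub : MulAction.stabilizer G b ≤ N := by
      intro g hg
      by_contra hgN
      exact hcon (hsumzero b g hgN (MulAction.mem_stabilizer_iff.mp hg))
    have hdvd := Subgroup.card_dvd_of_le hsub
    have hmul := Subgroup.card_mul_index N
    rw [hN, Nat.card_eq_fintype_card (α := G), hcardG] at hmul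
    rw [hcardS b hb u hu1 hub] at hdvd
    obtain ⟨m, hm⟩ := hdvd
    rw [hm] at hmul
    have h3 : k * (m * 2) = k * (2 * k - 1) := by rw [← hmul]; ring
    have h4 := Nat.eq_of_mul_eq_mul_left hk0 h3
    omega
  -- number of blocks fixed by u
  have hFcard : (B.filter (fun b => u • b = b)).card = 2 * k - 1 := by
    have h1 : ∑ b ∈ B.filter (fun b => u • b = b), b.card = Fintype.card V := by
      have h2 : ∀ x : V, (((B.filter (fun b => u • b = b))).filter (fun b => x ∈ b)).card = 1 := by
        intro x
        have hxu : x ≠ u • x := by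
          intro hh; exact hu1 (hinj x u 1 (by rw [one_smul]; exact hh.symm))
        obtain ⟨b, hb, hxb, huxb⟩ := hB.exists_block hxu
        have hub : u • b = b := by
          refine hB.unique_block hxu (hinv' u b hb) ?_ ?_ hb hxb huxb
          · have := Finset.smul_mem_smul_finset (a := u) huxb
            rwa [← mul_smul, huu, one_smul] at this
          · exact Finset.smul_mem_smul_finset hxb
        rw [Finset.card_eq_one]
        refine ⟨b, ?_⟩
        ext c
        simp only [Finset.mem_filter, Finset.mem_singleton]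
        constructor
        · rintro ⟨⟨hc, huc⟩, hxc⟩
          have huxc : u • x ∈ c := by
            have := Finset.smul_mem_smul_finset (a := u) hxc; rwa [huc] at this
          exact hB.unique_block hxu hc hxc huxc hb hxb huxb
        · rintro rfl
          exact ⟨⟨hb, hub⟩, hxb⟩
      have h3 : ∑ b ∈ B.filter (fun b => u • b = b), b.card
          = ∑ b ∈ B.filter (fun b => u • b = b), ∑ x : V, if x ∈ b then 1 else 0 := by
        refine Finset.sum_congr rfl (fun b _ => ?_)
        simp
      rw [h3, Finset.sum_comm]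
      have h4 : ∀ x : V, ∑ b ∈ B.filter (fun b => u • b = b), (if x ∈ b then 1 else 0) = 1 := by
        intro x
        rw [← Finset.sum_filter, Finset.sum_const, h2 x]; rfl
      rw [Finset.sum_congr rfl (fun x _ => h4 x)]
      simp
    have h5 : ∑ b ∈ B.filter (fun b => u • b = b), b.card
        = (B.filter (fun b => u • b = b)).card * k := by
      rw [Finset.sum_const_nat]
      intro b hb
      exact hB.block_size b (Finset.mem_filter.mp hb).1
    rw [h5, hv, mul_comm] at h1
    exact Nat.eq_of_mul_eq_mul_left hk0 h1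
  set S := B.filter (fun b => ¬ u • b = b) with hS
  have hScard : S.card = 2 * Fintype.card G := by
    have h2 := Finset.card_filter_add_card_filter_not (s := B) (fun b => u • b = b)
    rw [hFcard, hB.card_blocks] at h2
    rw [hS, hcardG]
    obtain ⟨m, rfl⟩ : ∃ m, k = m + 1 := ⟨k - 1, by omega⟩
    have e2 : 2 * (m + 1) - 1 = 2 * m + 1 := by omega
    rw [e2] at h2 ⊢
    have e3 : 4 * (m + 1) ^ 2 = 2 * ((m + 1) * (2 * m + 1)) + (2 * m + 1) + 1 := by ring
    omega
  have hSinv : ∀ g : G, ∀ b ∈ S, g • b ∈ S := by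
    intro g b hb
    rw [hS, Finset.mem_filter] at hb ⊢
    refine ⟨hinv' g b hb.1, fun hub => hb.2 ?_⟩
    rw [← mul_smul, mul_comm, mul_smul] at hub
    exact MulAction.injective g hub
  have hSfree : ∀ b ∈ S, ∀ g : G, g • b = b → g = 1 := by
    intro b hb g hg
    rw [hS, Finset.mem_filter] at hb
    by_contra hg1
    exact hb.2 (hustab b hb.1 g hg1 hg)
  have hSf : ∀ g : G, ∀ b ∈ S, (∑ x ∈ g • b, h x) ^ 2 = (∑ x ∈ b, h x) ^ 2 := by
    intro g b _
    have h2 : ∑ x ∈ g • b, h x = ∑ x ∈ b, h (g • x) := by
      show ∑ x ∈ b.image (fun x => g • x), h x = _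
      rw [Finset.sum_image (fun x _ y _ hxy => MulAction.injective g hxy)]
    rw [h2]
    simp only [hact]
    rw [← Finset.mul_sum, mul_pow, sgn_sq, one_mul]
  obtain ⟨b₁, _, b₂, _, hsum⟩ := sum_two_orbits S hSinv hSfree hScard
    (fun b => (∑ x ∈ b, h x) ^ 2) hSf
  have hsplit : ∑ b ∈ B, (∑ x ∈ b, h x) ^ 2 = ∑ b ∈ S, (∑ x ∈ b, h x) ^ 2 := by
    rw [hS, Finset.sum_filter]
    refine Finset.sum_congr rfl (fun b hb => ?_)
    by_cases hub : u • b = b
    · rw [hfix0 b hb hub]; simp [hub]
    · simp [hub]
  have hmain := hB.sum_sq h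
  rw [hsplit, hsum, htot, hsqtot] at hmain
  have hGpos : (0 : ℤ) < Fintype.card G := by
    have := Fintype.card_pos (α := G); exact_mod_cast this
  have hfinal : (∑ x ∈ b₁, h x) ^ 2 + (∑ x ∈ b₂, h x) ^ 2 = 2 * k := by
    have h3 : (Fintype.card G : ℤ) * ((∑ x ∈ b₁, h x) ^ 2 + (∑ x ∈ b₂, h x) ^ 2)
        = Fintype.card G * (2 * k) := by rw [hmain]; ring
    exact mul_left_cancel₀ hGpos.ne' h3
  exact sum_two_squares_of_double hfinal

end Run7.h570
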