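import Mathlib
import Pool.Agent.Run7.h570.Design
import Pool.Agent.Run7.h570.Orbits

/-!
Groups of automorphisms fixing one point and transitive on the other points.
-/

namespace Run7.h570

open Finset Pointwise

section orbits2

variable {G X : Type} [Group G] [DecidableEq X] [MulAction G X]

/-- If all orbits in an invariant finset of `2n` elements have length divisible by `n`, then sums
of invariant functions can be read off from two elements. -/
lemma sum_two_orbits_of_dvd (S : Finset X) (hS : ∀ g : G, ∀ x ∈ S, g • x ∈ S) (n : ℕ) (hn : 0 < n)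
    (hcard : S.card = 2 * n)
    (hdvd : ∀ O : Finset X, O ⊆ S → (∀ g : G, ∀ x ∈ O, g • x ∈ O) → n ∣ O.card)
    (f : X → ℤ) (hf : ∀ g : G, ∀ x ∈ S, f (g • x) = f x) :
    ∃ x₁ ∈ S, ∃ x₂ ∈ S, ∑ x ∈ S, f x = n * (f x₁ + f x₂) := by
  classical
  let O : X → Finset X := fun x => S.filter (fun y => ∃ g : G, g • x = y)
  have hOS : ∀ x, O x ⊆ S := fun x => Finset.filter_subset _ _
  have hxO : ∀ x ∈ S, x ∈ O x := fun x hx => by
    rw [Finset.mem_filter]; exact ⟨hx, 1, one_smul G x⟩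
  have hOd : ∀ x, n ∣ (O x).card := by
    intro x
    refine hdvd _ (hOS x) ?_
    intro g y hy
    rw [Finset.mem_filter] at hy ⊢
    obtain ⟨hy1, g', hg'⟩ := hy
    exact ⟨hS g y hy1, g * g', by rw [mul_smul, hg']⟩
  have hOs : ∀ x ∈ S, ∑ y ∈ O x, f y = (O x).card * f x := by
    intro x hx
    rw [Finset.sum_congr rfl (g := fun _ => f x)]
    · rw [Finset.sum_const, nsmul_eq_mul]
    · intro y hy
      rw [Finset.mem_filter] at hy
      obtain ⟨_, g, hg⟩ := hy
      rw [← hg, hf g x hx]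
  have hc : ∀ m : ℕ, 0 < m → m ≤ 2 * n → n ∣ m → m = n ∨ m = 2 * n := by
    rintro m hm hm2 ⟨c, rfl⟩
    have h1 : c ≤ 2 := by
      by_contra hcon
      have : n * 3 ≤ n * c := Nat.mul_le_mul_left _ (by omega)
      omega
    interval_cases c
    · omega
    · left; ring
    · right; ring
  obtain ⟨x₁, hx₁⟩ := Finset.card_pos.mp (show 0 < S.card by omega)
  have hO₁pos : 0 < (O x₁).card := Finset.card_pos.mpr ⟨x₁, hxO x₁ hx₁⟩
  have hO₁le := Finset.card_le_card (hOS x₁)
  rcases hc (O x₁).card hO₁pos (by omega) (hOd x₁) with h1 | h1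
  · have hdiff : (S \ O x₁).card = n := by
      rw [Finset.card_sdiff_of_subset (hOS x₁)]; omega
    obtain ⟨x₂, hx₂⟩ := Finset.card_pos.mp (show 0 < (S \ O x₁).card by omega)
    rw [Finset.mem_sdiff] at hx₂
    have hO₂sub : O x₂ ⊆ S \ O x₁ := by
      intro y hy
      rw [Finset.mem_sdiff]
      refine ⟨hOS x₂ hy, fun hy₁ => hx₂.2 ?_⟩
      rw [Finset.mem_filter] at hy hy₁ ⊢
      obtain ⟨_, g, hg⟩ := hy
      obtain ⟨_, g', hg'⟩ := hy₁
      exact ⟨hx₂.1, g⁻¹ * g', by rw [mul_smul, hg', ← hg, inv_smul_smul]⟩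
    have hO₂pos : 0 < (O x₂).card := Finset.card_pos.mpr ⟨x₂, hxO x₂ hx₂.1⟩
    have hO₂card : (O x₂).card = n := by
      have h2 := Finset.card_le_card hO₂sub
      have h3 := Nat.le_of_dvd hO₂pos (hOd x₂)
      omega
    have hO₂eq : O x₂ = S \ O x₁ := Finset.eq_of_subset_of_card_le hO₂sub (by omega)
    refine ⟨x₁, hx₁, x₂, hx₂.1, ?_⟩
    rw [← Finset.sum_sdiff (hOS x₁), ← hO₂eq, hOs x₁ hx₁, hOs x₂ hx₂.1, h1, hO₂card]
    ring
  · have hO₁eq : O x₁ = S := Finset.eq_of_subset_of_card_le (hOS x₁) (by omega)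
    refine ⟨x₁, hx₁, x₁, hx₁, ?_⟩
    rw [← hO₁eq, hOs x₁ hx₁, h1]
    push_cast; ring

end orbits2

open Classical in
/-- Sign function of a set. -/
noncomputable def sg {α : Type} (N : Set α) (g : α) : ℤ := if g ∈ N then 1 else -1

lemma sg_sq {α : Type} (N : Set α) (g : α) : sg N g ^ 2 = 1 := by
  unfold sg; split_ifs <;> norm_num

/-- Let `G` be a group of automorphisms fixing `p` and transitive on the other points, with a
subgroup `N` of index two which is not transitive on the other points.  Then `k` is a sum of two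
squares. -/
theorem transOff_sum_two_squares {V : Type} [Fintype V] [DecidableEq V] {k : ℕ}
    {B : Finset (Finset V)} (hB : IsDesign k B) (p : V) (G N : Subgroup (Equiv.Perm V))
    (hinv : ∀ g ∈ G, ∀ b ∈ B, g • b ∈ B) (hp : ∀ g ∈ G, g p = p)
    (htrans : ∀ x y : V, x ≠ p → y ≠ p → ∃ g ∈ G, g x = y)
    (hNG : N ≤ G) (hidx : N.relIndex G = 2)
    (x₀ y₀ : V) (hx₀ : x₀ ≠ p) (hy₀ : y₀ ≠ p) (hxy : ∀ g ∈ N, g x₀ ≠ y₀) :
    ∃ a b : ℕ, k = a ^ 2 + b ^ 2 := by
  classical
  rcases Nat.lt_or_ge k 2 with hk | hk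
  · interval_cases k
    · exact ⟨0, 0, by norm_num⟩
    · exact ⟨1, 0, by norm_num⟩
  have hv := hB.card_points
  have hv1 : (k - 1) * (2 * k + 1) + 1 = k * (2 * k - 1) := by
    obtain ⟨m, rfl⟩ : ∃ m, k = m + 2 := ⟨k - 2, by omega⟩
    have e1 : m + 2 - 1 = m + 1 := by omega
    have e2 : 2 * (m + 2) - 1 = 2 * m + 3 := by omega
    rw [e1, e2]; ring
  have hpos : 0 < (k - 1) * (2 * k + 1) := Nat.mul_pos (by omega) (by omega)
  -- the subgroup N inside G
  have hidx' : (N.subgroupOf G).index = 2 := hidx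
  have hmulN : ∀ a ∈ G, ∀ b ∈ G, (a * b ∈ N ↔ (a ∈ N ↔ b ∈ N)) := by
    intro a ha b hb
    have := Subgroup.mul_mem_iff_of_index_two hidx' (a := ⟨a, ha⟩) (b := ⟨b, hb⟩)
    simpa [Subgroup.mem_subgroupOf] using this
  have hsgmul : ∀ a ∈ G, ∀ b ∈ G, sg (N : Set (Equiv.Perm V)) (a * b) = sg N a * sg N b := by
    intro a ha b hb
    have h1 := hmulN a ha b hb
    unfold sg
    by_cases h2 : a ∈ N <;> by_cases h3 : b ∈ N <;> simp [h1, h2, h3]
  have hstab : ∀ s ∈ G, s x₀ = x₀ → s ∈ N := by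
    intro s hs hsx
    by_contra hsN
    obtain ⟨g, hg, hgx⟩ := htrans x₀ y₀ hx₀ hy₀
    have hgN : g ∉ N := fun h => hxy g h hgx
    have h1 : g * s ∈ N := (hmulN g hg s hs).mpr ⟨fun h => absurd h hgN, fun h => absurd h hsN⟩
    refine hxy _ h1 ?_
    rw [Equiv.Perm.mul_apply, hsx, hgx]
  have hne : ∀ g ∈ G, ∀ x : V, x ≠ p → g x ≠ p := by
    intro g hg x hx h
    apply hx
    apply g.injective
    rw [h, hp g hg]
  -- sign function
  let h : V → ℤ := fun x => if x = p then 0 else if ∃ g ∈ N, g x₀ = x then 1 else -1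
  have hh0 : h p = 0 := by simp [h]
  have hhg : ∀ g ∈ G, h (g x₀) = sg N g := by
    intro g hg
    have h1 : g x₀ ≠ p := hne g hg x₀ hx₀
    show (if g x₀ = p then 0 else if ∃ g' ∈ N, g' x₀ = g x₀ then (1 : ℤ) else -1) = sg N g
    rw [if_neg h1]
    unfold sg
    by_cases h2 : g ∈ N
    · have h3 : ∃ g' ∈ N, g' x₀ = g x₀ := ⟨g, h2, rfl⟩
      rw [if_pos h3, if_pos (show g ∈ (N : Set (Equiv.Perm V)) from h2)]
    · rw [if_neg (show g ∉ (N : Set (Equiv.Perm V)) from h2), if_neg]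
      rintro ⟨n, hn, hnx⟩
      apply h2
      have h3 : n⁻¹ * g ∈ N := by
        refine hstab _ (G.mul_mem (G.inv_mem (hNG hn)) hg) ?_
        rw [Equiv.Perm.mul_apply, ← hnx]
        exact n.symm_apply_apply x₀
      have h4 := N.mul_mem hn h3
      rwa [mul_inv_cancel_left] at h4
  have hsurj : ∀ x : V, x ≠ p → ∃ g ∈ G, x = g x₀ := by
    intro x hx
    obtain ⟨g, hg, hgx⟩ := htrans x₀ x hx₀ hx
    exact ⟨g, hg, hgx.symm⟩
  have hact : ∀ a ∈ G, ∀ x : V, h (a x) = sg N a * h x := by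
    intro a ha x
    by_cases hx : x = p
    · rw [hx, hp a ha, hh0, mul_zero]
    · obtain ⟨g, hg, rfl⟩ := hsurj x hx
      rw [← Equiv.Perm.mul_apply, hhg _ (G.mul_mem ha hg), hhg g hg, hsgmul a ha g hg]
  have hsq : ∀ x : V, x ≠ p → h x ^ 2 = 1 := by
    intro x hx
    obtain ⟨g, hg, rfl⟩ := hsurj x hx
    rw [hhg g hg, sg_sq]
  have hsgnc : ∀ c : Equiv.Perm V, c ∉ N → sg (N : Set (Equiv.Perm V)) c = -1 := by
    intro c hc; unfold sg
    rw [if_neg (show c ∉ (N : Set (Equiv.Perm V)) from hc)]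
  have hsumsmul : ∀ g ∈ G, ∀ b : Finset V, ∑ x ∈ g • b, h x = sg N g * ∑ x ∈ b, h x := by
    intro g hg b
    have h2 : ∑ x ∈ g • b, h x = ∑ x ∈ b, h (g x) := by
      show ∑ x ∈ b.image (fun x => g • x), h x = _
      rw [Finset.sum_image (fun x _ y _ hxy => MulAction.injective g hxy)]
      rfl
    rw [h2, Finset.mul_sum]
    exact Finset.sum_congr rfl (fun x _ => hact g hg x)
  have hsumzero : ∀ b : Finset V, ∀ c ∈ G, c ∉ N → c • b = b → ∑ x ∈ b, h x = 0 := by
    intro b c hcG hc hcb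
    have h1 := hsumsmul c hcG b
    rw [hcb, hsgnc c hc] at h1
    omega
  have htot : ∑ x, h x = 0 := by
    obtain ⟨c, hcG, hcx⟩ := htrans x₀ y₀ hx₀ hy₀
    refine hsumzero univ c hcG (fun h => hxy c h hcx) ?_
    ext x; simp
  have hsqtot : ∑ x, h x ^ 2 = (((k - 1) * (2 * k + 1) : ℕ) : ℤ) := by
    rw [← Finset.add_sum_erase univ _ (Finset.mem_univ p), hh0,
      Finset.sum_congr rfl (g := fun _ => (1 : ℤ)) (fun x hx => hsq x (Finset.ne_of_mem_erase hx))]
    rw [Finset.sum_const, Finset.card_erase_of_mem (Finset.mem_univ p), Finset.card_univ, hv,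
      ← hv1]
    simp
  -- action of the group G on sets
  have hsmulG : ∀ (g : G) (b : Finset V), g • b = (g : Equiv.Perm V) • b := fun g b => rfl
  -- blocks through p
  have hthroughp : ∀ b ∈ B, p ∈ b → ∑ x ∈ b, h x = 0 := by
    intro b hb hpb
    by_contra hcon
    have hsub : MulAction.stabilizer G b ≤ N.subgroupOf G := by
      intro g hg
      rw [Subgroup.mem_subgroupOf]
      by_contra hgN
      exact hcon (hsumzero b g.1 g.2 hgN (MulAction.mem_stabilizer_iff.mp hg))
    have hdvd := Subgroup.index_dvd_of_le hsub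
    rw [hidx', MulAction.index_stabilizer] at hdvd
    have horb : MulAction.orbit G b = ((B.filter (fun b => p ∈ b) : Finset (Finset V)) : Set _) := by
      ext c
      rw [Finset.mem_coe, Finset.mem_filter, MulAction.mem_orbit_iff]
      constructor
      · rintro ⟨g, rfl⟩
        refine ⟨hinv g.1 g.2 b hb, ?_⟩
        have := Finset.smul_mem_smul_finset (a := (g : Equiv.Perm V)) hpb
        rwa [Equiv.Perm.smul_def, hp g.1 g.2] at this
      · rintro ⟨hc, hpc⟩
        have hcardb : 1 < b.card := by rw [hB.block_size b hb]; omega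
        have hcardc : 1 < c.card := by rw [hB.block_size c hc]; omega
        obtain ⟨x, hx, hxp⟩ := Finset.exists_mem_ne hcardb p
        obtain ⟨y, hy, hyp⟩ := Finset.exists_mem_ne hcardc p
        obtain ⟨g, hg, hgx⟩ := htrans x y hxp hyp
        refine ⟨⟨g, hg⟩, ?_⟩
        show g • b = c
        refine hB.unique_block hyp (hinv g hg b hb) ?_ ?_ hc hy hpc
        · have := Finset.smul_mem_smul_finset (a := g) hx
          rwa [Equiv.Perm.smul_def, hgx] at this
        · have := Finset.smul_mem_smul_finset (a := g) hpb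
          rwa [Equiv.Perm.smul_def, hp g hg] at this
    rw [horb, Set.ncard_coe_finset, hB.point_degree p] at hdvd
    omega
  -- blocks missing p
  set S := B.filter (fun b => p ∉ b) with hS
  have hScard : S.card = 2 * ((k - 1) * (2 * k + 1)) := by
    have h2 := Finset.card_filter_add_card_filter_not (s := B) (fun b => p ∈ b)
    rw [hB.point_degree p, hB.card_blocks] at h2
    rw [hS]
    obtain ⟨m, rfl⟩ : ∃ m, k = m + 2 := ⟨k - 2, by omega⟩
    have e1 : m + 2 - 1 = m + 1 := by omega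
    rw [e1]
    have e3 : 4 * (m + 2) ^ 2 = 2 * ((m + 1) * (2 * (m + 2) + 1)) + (2 * (m + 2) + 1) + 1 := by
      ring
    omega
  have hSinv : ∀ g : G, ∀ b ∈ S, g • b ∈ S := by
    intro g b hb
    rw [hS, Finset.mem_filter] at hb ⊢
    refine ⟨hinv g.1 g.2 b hb.1, fun hpb => hb.2 ?_⟩
    have := Finset.smul_mem_smul_finset (a := (g : Equiv.Perm V)⁻¹) hpb
    rwa [Equiv.Perm.smul_def, hp _ (G.inv_mem g.2), hsmulG, inv_smul_smul] at this
  have hSdvd : ∀ O : Finset (Finset V), O ⊆ S → (∀ g : G, ∀ b ∈ O, g • b ∈ O) →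
      (k - 1) * (2 * k + 1) ∣ O.card := by
    intro O hOS hO
    have hdeg : ∀ x : V, x ≠ p → (O.filter (fun b => x ∈ b)).card
        = (O.filter (fun b => x₀ ∈ b)).card := by
      intro x hx
      obtain ⟨g, hg, rfl⟩ := hsurj x hx
      symm
      refine Finset.card_bij (fun b _ => (⟨g, hg⟩ : G) • b) ?_ ?_ ?_
      · intro b hb
        rw [Finset.mem_filter] at hb ⊢
        exact ⟨hO _ b hb.1, Finset.smul_mem_smul_finset (a := g) hb.2⟩
      · intro b _ c _ hbc
        exact MulAction.injective _ hbc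
      · intro c hc
        rw [Finset.mem_filter] at hc
        refine ⟨(⟨g, hg⟩ : G)⁻¹ • c, ?_, smul_inv_smul _ _⟩
        rw [Finset.mem_filter]
        refine ⟨hO _ c hc.1, ?_⟩
        have := Finset.smul_mem_smul_finset (a := g⁻¹) hc.2
        rwa [Equiv.Perm.smul_def, show g⁻¹ (g x₀) = x₀ from g.symm_apply_apply x₀] at this
    have hcount : O.card * k = (k - 1) * (2 * k + 1) * (O.filter (fun b => x₀ ∈ b)).card := by
      have h1 : ∑ b ∈ O, b.card = O.card * k := by
        rw [Finset.sum_const_nat]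
        intro b hb
        have := hOS hb
        rw [hS, Finset.mem_filter] at this
        exact hB.block_size b this.1
      have h2 : ∑ b ∈ O, b.card = ∑ x ∈ univ.erase p, (O.filter (fun b => x ∈ b)).card := by
        have h3 : ∀ b ∈ O, b.card = ∑ x ∈ univ.erase p, (if x ∈ b then 1 else 0) := by
          intro b hb
          have hpb : p ∉ b := by
            have := hOS hb
            rw [hS, Finset.mem_filter] at this
            exact this.2
          rw [← Finset.card_filter]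
          congr 1
          ext x
          simp only [Finset.mem_filter, Finset.mem_erase, Finset.mem_univ, and_true]
          exact ⟨fun hx => ⟨fun hxp => hpb (hxp ▸ hx), hx⟩, fun hx => hx.2⟩
        rw [Finset.sum_congr rfl h3, Finset.sum_comm]
        refine Finset.sum_congr rfl (fun x _ => ?_)
        rw [Finset.card_filter]
      rw [← h1, h2, Finset.sum_congr rfl (g := fun _ => (O.filter (fun b => x₀ ∈ b)).card)
        (fun x hx => hdeg x (Finset.ne_of_mem_erase hx)), Finset.sum_const,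
        Finset.card_erase_of_mem (Finset.mem_univ p), Finset.card_univ, hv, ← hv1, smul_eq_mul,
        Nat.add_sub_cancel]
    have hcop : Nat.Coprime ((k - 1) * (2 * k + 1)) k := by
      rw [Nat.coprime_comm]
      have h1 : Nat.Coprime (k * (2 * k - 1)) ((k - 1) * (2 * k + 1)) := by
        rw [← hv1]
        simp
      exact Nat.Coprime.coprime_mul_right h1
    exact hcop.dvd_of_dvd_mul_right ⟨_, hcount⟩
  have hSf : ∀ g : G, ∀ b ∈ S, (∑ x ∈ g • b, h x) ^ 2 = (∑ x ∈ b, h x) ^ 2 := by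
    intro g b _
    rw [hsmulG, hsumsmul g.1 g.2 b, mul_pow, sg_sq, one_mul]
  obtain ⟨b₁, _, b₂, _, hsum⟩ := sum_two_orbits_of_dvd S hSinv _ hpos hScard hSdvd
    (fun b => (∑ x ∈ b, h x) ^ 2) hSf
  have hsplit : ∑ b ∈ B, (∑ x ∈ b, h x) ^ 2 = ∑ b ∈ S, (∑ x ∈ b, h x) ^ 2 := by
    rw [hS, Finset.sum_filter]
    refine Finset.sum_congr rfl (fun b hb => ?_)
    by_cases hpb : p ∈ b
    · rw [hthroughp b hb hpb]; simp [hpb]
    · simp [hpb]
  have hmain := hB.sum_sq h
  rw [hsplit, hsum, htot, hsqtot] at hmain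
  have hGpos : (0 : ℤ) < (((k - 1) * (2 * k + 1) : ℕ) : ℤ) := by exact_mod_cast hpos
  have hfinal : (∑ x ∈ b₁, h x) ^ 2 + (∑ x ∈ b₂, h x) ^ 2 = 2 * k := by
    have h3 : (((k - 1) * (2 * k + 1) : ℕ) : ℤ) * ((∑ x ∈ b₁, h x) ^ 2 + (∑ x ∈ b₂, h x) ^ 2)
        = (((k - 1) * (2 * k + 1) : ℕ) : ℤ) * (2 * k) := by rw [hmain]; ring
    exact mul_left_cancel₀ hGpos.ne' h3
  exact sum_two_squares_of_double hfinal

end Run7.h570
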