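import Mathlib
import Pool.Agent.Run7.h570.Design
import Pool.Agent.Run7.h570.Orbits

/-!
Groups acting regularly on all points but one.
-/

namespace Run7.h570

open Finset Pointwise

theorem oneRotational_sum_two_squares {G V : Type} [Group G] [Fintype V] [DecidableEq V]
    [MulAction G V] {k : ℕ} {B : Finset (Finset V)} (hB : IsDesign k B)
    (hinv : ∀ g : G, ∀ b ∈ B, b.image (fun x => g • x) ∈ B) (p : V) (hp : ∀ g : G, g • p = p)
    (hreg : ∀ x y : V, x ≠ p → y ≠ p → ∃! g : G, g • x = y)
    (N : Subgroup G) (hN : N.index = 2) : ∃ a b : ℕ, k = a ^ 2 + b ^ 2 := by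
  classical
  have hinv' : ∀ g : G, ∀ b ∈ B, g • b ∈ B := hinv
  rcases Nat.lt_or_ge k 2 with hk | hk
  · interval_cases k
    · exact ⟨0, 0, by norm_num⟩
    · exact ⟨1, 0, by norm_num⟩
  have hv := hB.card_points
  have hv1 : (k - 1) * (2 * k + 1) + 1 = k * (2 * k - 1) := by
    obtain ⟨m, rfl⟩ : ∃ m, k = m + 2 := ⟨k - 2, by omega⟩
    have e1 : m + 2 - 1 = m + 1 := by omega
    have e2 : 2 * (m + 2) - 1 = 2 * m + 3 := by omega
    rw [e1, e2]; ring
  have hpos : 0 < (k - 1) * (2 * k + 1) := Nat.mul_pos (by omega) (by omega)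
  -- base point
  obtain ⟨x₀, hx₀⟩ : ∃ x₀ : V, x₀ ≠ p := by
    have : 1 < Fintype.card V := by rw [hv]; omega
    haveI : Nontrivial V := Fintype.one_lt_card_iff_nontrivial.mp this
    exact exists_ne p
  have hne : ∀ g : G, ∀ x : V, x ≠ p → g • x ≠ p := by
    intro g x hx h
    apply hx
    rw [← inv_smul_smul g x, h, hp]
  have hinj : ∀ x : V, x ≠ p → ∀ g h : G, g • x = h • x → g = h := by
    intro x hx g h hgh
    exact (hreg x (h • x) hx (hne h x hx)).unique hgh rfl
  haveI : Finite G := Finite.of_injective (fun g : G => g • x₀) (fun g h => hinj x₀ hx₀ g h)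
  haveI : Fintype G := Fintype.ofFinite G
  have himg : univ.image (fun g : G => g • x₀) = univ.erase p := by
    ext x
    simp only [Finset.mem_image, Finset.mem_univ, true_and, Finset.mem_erase, and_true]
    constructor
    · rintro ⟨g, rfl⟩; exact hne g x₀ hx₀
    · intro hx
      obtain ⟨g, hg, _⟩ := hreg x₀ x hx₀ hx
      exact ⟨g, hg⟩
  have hcardG : Fintype.card G = (k - 1) * (2 * k + 1) := by
    have h1 : (univ.image (fun g : G => g • x₀)).card = Fintype.card G := by
      rw [Finset.card_image_of_injective _ (fun g h => hinj x₀ hx₀ g h), Finset.card_univ]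
    rw [himg, Finset.card_erase_of_mem (Finset.mem_univ p), Finset.card_univ, hv] at h1
    omega
  -- sign function
  let h : V → ℤ := fun x => ∑ g : G, if g • x₀ = x then sgn N g else 0
  have hh0 : h p = 0 := by
    refine Finset.sum_eq_zero (fun g _ => ?_)
    rw [if_neg (hne g x₀ hx₀)]
  have hhg : ∀ g : G, h (g • x₀) = sgn N g := by
    intro g
    show ∑ g' : G, (if g' • x₀ = g • x₀ then sgn N g' else 0) = sgn N g
    rw [Finset.sum_eq_single g]
    · simp
    · intro g' _ hne'
      rw [if_neg (fun hh => hne' (hinj x₀ hx₀ _ _ hh))]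
    · intro hh; exact absurd (Finset.mem_univ g) hh
  have hsurj : ∀ x : V, x ≠ p → ∃ g : G, x = g • x₀ := by
    intro x hx
    obtain ⟨g, hg, _⟩ := hreg x₀ x hx₀ hx
    exact ⟨g, hg.symm⟩
  have hact : ∀ a : G, ∀ x : V, h (a • x) = sgn N a * h x := by
    intro a x
    by_cases hx : x = p
    · rw [hx, hp, hh0, mul_zero]
    · obtain ⟨g, rfl⟩ := hsurj x hx
      rw [← mul_smul, hhg, hhg, sgn_mul hN]
  have hsq : ∀ x : V, x ≠ p → h x ^ 2 = 1 := by
    intro x hx
    obtain ⟨g, rfl⟩ := hsurj x hx
    rw [hhg, sgn_sq]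
  obtain ⟨c, hc⟩ : ∃ c : G, c ∉ N := by
    by_contra hcon
    push Not at hcon
    have : N = ⊤ := (Subgroup.eq_top_iff' N).mpr hcon
    rw [this, Subgroup.index_top] at hN
    omega
  have hsgnc : ∀ c : G, c ∉ N → sgn N c = -1 := by
    intro c hc; unfold sgn; rw [if_neg hc]
  have hsumzero : ∀ b : Finset V, ∀ c : G, c ∉ N → c • b = b → ∑ x ∈ b, h x = 0 := by
    intro b c hc hcb
    have h1 : ∑ x ∈ b, h x = ∑ x ∈ c • b, h x := by rw [hcb]
    have h2 : ∑ x ∈ c • b, h x = ∑ x ∈ b, h (c • x) := by
      show ∑ x ∈ b.image (fun x => c • x), h x = _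
      rw [Finset.sum_image (fun x _ y _ hxy => MulAction.injective c hxy)]
    rw [h2] at h1
    simp only [hact, hsgnc c hc] at h1
    rw [← Finset.mul_sum] at h1
    omega
  have htot : ∑ x, h x = 0 := by
    refine hsumzero univ c hc ?_
    ext x; simp
  have hsqtot : ∑ x, h x ^ 2 = (Fintype.card G : ℤ) := by
    rw [← Finset.add_sum_erase univ _ (Finset.mem_univ p), hh0, ← himg,
      Finset.sum_image (fun g _ h _ hgh => hinj x₀ hx₀ g h hgh)]
    simp [hhg, sgn_sq]
  -- blocks through p
  have hthroughp : ∀ b ∈ B, p ∈ b → ∑ x ∈ b, h x = 0 := by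
    intro b hb hpb
    have hstab : ∀ x ∈ b, x ≠ p → ∀ g : G, g • x ∈ b → g • b = b := by
      intro x hx hxp g hgx
      have h1 : g • x ≠ p := hne g x hxp
      refine hB.unique_block h1 (hinv' g b hb) ?_ ?_ hb hgx hpb
      · exact Finset.smul_mem_smul_finset hx
      · have := Finset.smul_mem_smul_finset (a := g) hpb
        rwa [hp] at this
    have hcardb : 1 < b.card := by rw [hB.block_size b hb]; omega
    obtain ⟨x, hx, hxp⟩ := Finset.exists_mem_ne hcardb p
    by_contra hcon
    have hsub : MulAction.stabilizer G b ≤ N := by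
      intro g hg
      by_contra hgN
      exact hcon (hsumzero b g hgN (MulAction.mem_stabilizer_iff.mp hg))
    have hcardS : Nat.card (MulAction.stabilizer G b) = k - 1 := by
      have h1 : ((univ.filter (fun g : G => g • b = b)).image (fun g : G => g • x)) = b.erase p := by
        ext y
        simp only [Finset.mem_image, Finset.mem_filter, Finset.mem_univ, true_and,
          Finset.mem_erase]
        constructor
        · rintro ⟨g, hg, rfl⟩
          refine ⟨hne g x hxp, ?_⟩
          have := Finset.smul_mem_smul_finset (a := g) hx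
          rwa [hg] at this
        · rintro ⟨hyp, hyb⟩
          obtain ⟨g, hg, _⟩ := hreg x y hxp hyp
          exact ⟨g, hstab x hx hxp g (by rw [hg]; exact hyb), hg⟩
      have h2 := congrArg Finset.card h1
      rw [Finset.card_image_of_injOn (fun g _ g' _ hgg => hinj x hxp g g' hgg),
        Finset.card_erase_of_mem hpb, hB.block_size b hb] at h2
      rw [← h2, Nat.card_eq_fintype_card, Fintype.card_subtype]
      congr 1
    have hdvd := Subgroup.card_dvd_of_le hsub
    have hmul := Subgroup.card_mul_index N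
    rw [hN, Nat.card_eq_fintype_card (α := G), hcardG] at hmul
    rw [hcardS] at hdvd
    obtain ⟨m, hm⟩ := hdvd
    rw [hm] at hmul
    have h3 : (k - 1) * (m * 2) = (k - 1) * (2 * k + 1) := by rw [← hmul]; ring
    have h4 := Nat.eq_of_mul_eq_mul_left (show 0 < k - 1 by omega) h3
    omega
  -- blocks missing p
  set S := B.filter (fun b => p ∉ b) with hS
  have hScard : S.card = 2 * Fintype.card G := by
    have h2 := Finset.card_filter_add_card_filter_not (s := B) (fun b => p ∈ b)
    rw [hB.point_degree p, hB.card_blocks] at h2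
    rw [hS, hcardG]
    obtain ⟨m, rfl⟩ : ∃ m, k = m + 2 := ⟨k - 2, by omega⟩
    have e1 : m + 2 - 1 = m + 1 := by omega
    rw [e1]
    have e3 : 4 * (m + 2) ^ 2 = 2 * ((m + 1) * (2 * (m + 2) + 1)) + (2 * (m + 2) + 1) + 1 := by
      ring
    omega
  have hSinv : ∀ g : G, ∀ b ∈ S, g • b ∈ S := by
    intro g b hb
    rw [hS, Finset.mem_filter] at hb ⊢
    refine ⟨hinv' g b hb.1, fun hpb => hb.2 ?_⟩
    have := Finset.smul_mem_smul_finset (a := g⁻¹) hpb
    rwa [hp, inv_smul_smul] at this
  have hSfree : ∀ b ∈ S, ∀ g : G, g • b = b → g = 1 := by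
    intro b hb g hg
    rw [hS, Finset.mem_filter] at hb
    by_contra hg1
    have ho : orderOf g ≠ 1 := fun h1 => hg1 (orderOf_eq_one_iff.mp h1)
    set q := (orderOf g).minFac with hq
    have hqp : q.Prime := Nat.minFac_prime ho
    have hqd : q ∣ orderOf g := Nat.minFac_dvd _
    obtain ⟨n, hn⟩ := hqd
    have hopos : 0 < orderOf g := orderOf_pos g
    set g' := g ^ n with hg'
    have hg'1 : g' ≠ 1 := by
      intro h1
      have := orderOf_dvd_of_pow_eq_one h1
      rw [hn] at this
      have hnpos : 0 < n := by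
        rcases Nat.eq_zero_or_pos n with h0 | h0
        · rw [h0, mul_zero] at hn; omega
        · exact h0
      have := Nat.le_of_dvd hnpos this
      have := hqp.two_le
      nlinarith
    have hg'q : g' ^ q = 1 := by
      rw [hg', ← pow_mul, mul_comm, ← hn, pow_orderOf_eq_one]
    have hg'b : g' • b = b := by
      have : g' ∈ MulAction.stabilizer G b :=
        Subgroup.pow_mem _ (MulAction.mem_stabilizer_iff.mpr hg) n
      exact MulAction.mem_stabilizer_iff.mp this
    have hqk : q ∣ k := by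
      rw [← hB.block_size b hb.1]
      refine prime_dvd_card_of_free hqp b (fun x => g' • x) ?_ ?_ ?_
      · intro x hx
        have := Finset.smul_mem_smul_finset (a := g') hx
        rwa [hg'b] at this
      · intro x _
        have : ∀ n : ℕ, (fun x : V => g' • x)^[n] x = g' ^ n • x := by
          intro n
          induction n with
          | zero => simp
          | succ n ih => rw [Function.iterate_succ_apply', ih, ← mul_smul, ← pow_succ']
        rw [this, hg'q, one_smul]
      · intro x hx hfx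
        have hxp : x ≠ p := fun h => hb.2 (h ▸ hx)
        exact hg'1 (hinj x hxp _ _ (by rw [one_smul]; exact hfx))
    have hqG : q ∣ (k - 1) * (2 * k + 1) := by
      rw [← hcardG]
      exact dvd_trans ⟨n, hn⟩ orderOf_dvd_card
    have h1 : q ∣ k * (2 * k - 1) := Dvd.dvd.mul_right hqk _
    rw [← hv1] at h1
    have h2 : q ∣ 1 := (Nat.dvd_add_right hqG).mp h1
    exact hqp.one_lt.ne' (Nat.dvd_one.mp h2)
  have hSf : ∀ g : G, ∀ b ∈ S, (∑ x ∈ g • b, h x) ^ 2 = (∑ x ∈ b, h x) ^ 2 := by
    intro g b _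
    have h2 : ∑ x ∈ g • b, h x = ∑ x ∈ b, h (g • x) := by
      show ∑ x ∈ b.image (fun x => g • x), h x = _
      rw [Finset.sum_image (fun x _ y _ hxy => MulAction.injective g hxy)]
    rw [h2]
    simp only [hact]
    rw [← Finset.mul_sum, mul_pow, sgn_sq, one_mul]
  obtain ⟨b₁, _, b₂, _, hsum⟩ := sum_two_orbits S hSinv hSfree hScard
    (fun b => (∑ x ∈ b, h x) ^ 2) hSf
  have hsplit : ∑ b ∈ B, (∑ x ∈ b, h x) ^ 2 = ∑ b ∈ S, (∑ x ∈ b, h x) ^ 2 := by
    rw [hS, Finset.sum_filter]
    refine Finset.sum_congr rfl (fun b hb => ?_)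
    by_cases hpb : p ∈ b
    · rw [hthroughp b hb hpb]; simp [hpb]
    · simp [hpb]
  have hmain := hB.sum_sq h
  rw [hsplit, hsum, htot, hsqtot] at hmain
  have hGpos : (0 : ℤ) < Fintype.card G := by
    have := Fintype.card_pos (α := G); exact_mod_cast this
  have hfinal : (∑ x ∈ b₁, h x) ^ 2 + (∑ x ∈ b₂, h x) ^ 2 = 2 * k := by
    have h3 : (Fintype.card G : ℤ) * ((∑ x ∈ b₁, h x) ^ 2 + (∑ x ∈ b₂, h x) ^ 2)
        = Fintype.card G * (2 * k) := by rw [hmain]; ring
    exact mul_left_cancel₀ hGpos.ne' h3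
  exact sum_two_squares_of_double hfinal

end Run7.h570
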