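import Mathlib
import Pool.Agent.Run7.h570.Design
import Pool.Agent.Run7.h570.Orbits
import Pool.Agent.Run7.h570.Reverse
import Pool.Agent.Run7.h570.Normaliser
import Pool.Agent.Run7.h570.Sigma
import Pool.Agent.Run7.h570.TwoGroup

/-!
A two-group of automorphisms normalised by an automorphism of prime order `2k+1` is centralised
by it.
-/

namespace Run7.h570

open Finset Pointwise

variable {V : Type} [Fintype V] [DecidableEq V] {k : ℕ} {B : Finset (Finset V)}

/-- Let `k ≥ 5` be odd, `2k+1` prime, `σ` an automorphism of order `2k+1`, and `S` a two-group of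
automorphisms normalised by `σ`.  Then `σ` centralises `S`. -/
theorem two_group_centralised (hk : 5 ≤ k) (hodd : k % 2 = 1) (hp : (2 * k + 1).Prime)
    (hB : IsDesign k B) (σ : Equiv.Perm V) (hσB : ∀ b ∈ B, σ • b ∈ B)
    (hσ : orderOf σ = 2 * k + 1) (S : Subgroup (Equiv.Perm V)) (hS : IsPGroup 2 S)
    (hSB : ∀ s ∈ S, ∀ b ∈ B, s • b ∈ B) (hnorm : ∀ s ∈ S, σ * s * σ⁻¹ ∈ S) :
    ∀ s ∈ S, σ * s = s * σ := by
  classical
  obtain ⟨p, hσp, hpuniq, hnob, hsemi, htrans⟩ := sigma_facts (by omega) hp hB σ hσB hσ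
  have hσpow : σ ^ (2 * k + 1) = 1 := by rw [← hσ]; exact pow_orderOf_eq_one σ
  have hv := hB.card_points
  let T : Finset (Equiv.Perm V) := univ.filter (fun s => s ∈ S)
  have hT : ∀ s, s ∈ T ↔ s ∈ S := by intro s; simp [T]
  have h1T : (1 : Equiv.Perm V) ∈ T := (hT 1).mpr S.one_mem
  -- conjugation by σ
  have hconjit : ∀ n : ℕ, ∀ s : Equiv.Perm V, (fun s => σ * s * σ⁻¹)^[n] s = σ ^ n * s * (σ ^ n)⁻¹ := by
    intro n
    induction n with
    | zero => intro s; simp
    | succ n ih =>
      intro s
      rw [Function.iterate_succ_apply', ih, pow_succ']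
      group
  have hconj : ∀ n : ℕ, ∀ s ∈ S, (σ ^ n)⁻¹ * s * σ ^ n ∈ S := by
    -- use that (σ ^ n)⁻¹ = σ ^ (m) for some m
    have hpos : ∀ n : ℕ, ∀ s ∈ S, σ ^ n * s * (σ ^ n)⁻¹ ∈ S := by
      intro n
      induction n with
      | zero => intro s hs; simpa using hs
      | succ n ih =>
        intro s hs
        have h1 := hnorm _ (ih s hs)
        have h2 : σ * (σ ^ n * s * (σ ^ n)⁻¹) * σ⁻¹ = σ ^ (n + 1) * s * (σ ^ (n + 1))⁻¹ := by
          rw [pow_succ']; group
        rwa [h2] at h1
    intro n s hs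
    have h1 := hpos (2 * k * n) s hs
    have h2 : σ ^ (2 * k * n) = (σ ^ n)⁻¹ := by
      rw [eq_inv_iff_mul_eq_one, ← pow_add]
      have : 2 * k * n + n = (2 * k + 1) * n := by ring
      rw [this, pow_mul, hσpow, one_pow]
    rwa [h2, inv_inv] at h1
  -- reduction: a bound on |T| suffices
  have hred : T.card ≤ 2 * k → ∀ s ∈ S, σ * s = s * σ := by
    intro hTle s hs
    by_contra hne
    let T' : Finset (Equiv.Perm V) := T.filter (fun s => σ * s ≠ s * σ)
    have h1 : (2 * k + 1) ∣ T'.card := by
      refine prime_dvd_card_of_free hp T' (fun s => σ * s * σ⁻¹) ?_ ?_ ?_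
      · intro s hs
        rw [Finset.mem_filter] at hs ⊢
        refine ⟨(hT _).mpr (hnorm s ((hT s).mp hs.1)), fun h => hs.2 ?_⟩
        have h2 : σ * (σ * s * σ⁻¹) = σ * s := by rw [h]; group
        have h3 := mul_left_cancel h2
        calc σ * s = σ * s * σ⁻¹ * σ := by group
          _ = s * σ := by rw [h3]
      · intro s _
        rw [hconjit, hσpow]; simp
      · intro s hs h
        rw [Finset.mem_filter] at hs
        apply hs.2
        calc σ * s = σ * s * σ⁻¹ * σ := by group
          _ = s * σ := by rw [show σ * s * σ⁻¹ = s from h]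
    have h2 : s ∈ T' := by
      rw [Finset.mem_filter]; exact ⟨(hT s).mpr hs, hne⟩
    have h3 := Nat.le_of_dvd (Finset.card_pos.mpr ⟨s, h2⟩) h1
    have h4 := Finset.card_filter_le T (fun s => σ * s ≠ s * σ)
    have h5 : T'.card ≤ T.card := h4
    omega
  -- involution powers
  have hinvol : ∀ s ∈ S, s ≠ 1 → ∃ t ∈ S, t ≠ 1 ∧ (∀ x, t (t x) = x) ∧ t * t = 1 ∧
      (∀ x, s x = x → t x = x) ∧ (σ * s = s * σ → σ * t = t * σ) := by
    intro s hs hs1
    obtain ⟨n, hn1, hn2⟩ := exists_involution_pow S hS s hs hs1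
    refine ⟨s ^ n, S.pow_mem hs n, hn1, ?_, hn2, ?_, ?_⟩
    · intro x
      have := congrArg (fun f : Equiv.Perm V => f x) hn2
      simpa using this
    · intro x hx
      have : ∀ m : ℕ, (s ^ m) x = x := by
        intro m
        induction m with
        | zero => rfl
        | succ m ih => rw [pow_succ', Equiv.Perm.mul_apply, ih, hx]
      exact this n
    · intro hc
      exact (Commute.pow_right (show Commute σ s from hc) n)
  -- fixed points of S
  let F : Finset V := univ.filter (fun x => ∀ s ∈ S, s x = x)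
  have hFmem : ∀ x, x ∈ F ↔ ∀ s ∈ S, s x = x := by intro x; simp [F]
  have hFne : F.Nonempty := by
    have : Fact (Nat.Prime 2) := ⟨Nat.prime_two⟩
    have h1 := hS.card_modEq_card_fixedPoints V
    rw [Nat.card_eq_fintype_card, hv] at h1
    have h2 : (MulAction.fixedPoints S V).Nonempty := by
      rw [Set.nonempty_iff_ne_empty]
      intro hemp
      rw [hemp] at h1
      have h3 : Nat.card (∅ : Set V) = 0 := by simp
      rw [h3] at h1
      have h4 : k * (2 * k - 1) % 2 = 1 := by
        rw [Nat.mul_mod, hodd]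
        have : (2 * k - 1) % 2 = 1 := by omega
        rw [this]
      have h5 : k * (2 * k - 1) % 2 = 0 % 2 := h1
      omega
    obtain ⟨x, hx⟩ := h2
    refine ⟨x, ?_⟩
    rw [hFmem]
    intro s hs
    exact hx ⟨s, hs⟩
  by_cases hpF : p ∈ F
  · -- S fixes p
    apply hred
    have hSp : ∀ s ∈ S, s p = p := (hFmem p).mp hpF
    -- S fixes some block through p
    obtain ⟨L₀, hL₀, hpL₀, hL₀inv⟩ : ∃ L₀ ∈ B, p ∈ L₀ ∧ ∀ s ∈ S, s • L₀ = L₀ := by
      by_contra hcon
      push Not at hcon
      have : Fact (Nat.Prime 2) := ⟨Nat.prime_two⟩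
      -- act on the subtype of blocks through p
      let X := {b : Finset V // b ∈ B ∧ p ∈ b}
      let act : MulAction S X :=
        { smul := fun s b => ⟨(s : Equiv.Perm V) • b.1, hSB s.1 s.2 b.1 b.2.1, by
            have := Finset.smul_mem_smul_finset (a := (s : Equiv.Perm V)) b.2.2
            rwa [Equiv.Perm.smul_def, hSp s.1 s.2] at this⟩
          one_smul := fun b => Subtype.ext (one_smul _ _)
          mul_smul := fun s s' b => Subtype.ext (mul_smul _ _ _) }
      have h1 := hS.card_modEq_card_fixedPoints X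
      have h2 : Nat.card X = 2 * k + 1 := by
        rw [← hB.point_degree p, Nat.card_eq_fintype_card, Fintype.card_subtype]
        congr 1
        ext b; simp
      have h3 : Nat.card (MulAction.fixedPoints S X) = 0 := by
        rw [Nat.card_eq_zero]
        left
        refine ⟨fun b => ?_⟩
        obtain ⟨s, hs, hsb⟩ := hcon b.1.1 b.1.2.1 b.1.2.2
        exact hsb (congrArg Subtype.val (b.2 ⟨s, hs⟩))
      rw [h2, h3] at h1
      have h4 : (2 * k + 1) % 2 = 0 % 2 := h1
      omega
    have hlines : ∀ s ∈ S, ∀ L ∈ B, p ∈ L → s • L = L := by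
      intro s hs L hL hpL
      obtain ⟨n, _, hn⟩ := htrans L₀ hL₀ hpL₀ L hL hpL
      have h1 := hL₀inv _ (hconj n s hs)
      rw [mul_smul, mul_smul, inv_smul_eq_iff, hn] at h1
      exact h1
    have hbd := group_bound (k := k) (by omega) hB S T hT {p} ⟨p, by simp⟩
      (B.filter (fun b => p ∈ b)) (by rw [hB.point_degree p]) ?_ ?_ ?_ ?_
    · -- conclude
      obtain ⟨m, rfl⟩ : ∃ m, k = m + 5 := ⟨k - 5, by omega⟩
      have e1 : m + 5 - 1 = m + 4 := by omega
      rw [e1] at hbd
      by_contra hcon
      push Not at hcon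
      have : (2 * (m + 5) + 1) * (m + 5 + 2) ≤ T.card * (m + 5 + 2) := Nat.mul_le_mul_right _ hcon
      nlinarith
    · intro L hL s hs x hx
      rw [Finset.mem_filter] at hL
      rw [Finset.mem_sdiff, Finset.mem_singleton] at hx ⊢
      constructor
      · have := Finset.smul_mem_smul_finset (a := s) hx.1
        rwa [hlines s hs L hL.1 hL.2, Equiv.Perm.smul_def] at this
      · intro h
        apply hx.2
        apply s.injective
        rw [h, hSp s hs]
    · intro L hL
      rw [Finset.mem_filter] at hL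
      obtain ⟨x, hx, hxp⟩ := Finset.exists_mem_ne (show 1 < L.card by
        rw [hB.block_size L hL.1]; omega) p
      exact ⟨x, by rw [Finset.mem_sdiff, Finset.mem_singleton]; exact ⟨hx, hxp⟩⟩
    · intro L hL L' hL' hne
      rw [Finset.mem_filter] at hL hL'
      rw [Finset.disjoint_left]
      intro x hx hx'
      rw [Finset.mem_sdiff, Finset.mem_singleton] at hx hx'
      exact hne (hB.unique_block hx.2 hL.1 hx.1 hL.2 hL'.1 hx'.1 hL'.2)
    · intro s hs hs1
      obtain ⟨t, ht, ht1, htt, _, hst, _⟩ := hinvol s hs hs1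
      have h1 := card_fixed_le_of_central hk hodd hB t htt ht1 (hSB t ht) p (hSp t ht)
        (fun b hb hpb => hlines t ht b hb hpb)
      have h2 : (univ.filter (fun x => s x = x)) \ {p} ⊆ (univ.filter (fun x => t x = x)).erase p := by
        intro x hx
        rw [Finset.mem_sdiff, Finset.mem_filter, Finset.mem_singleton] at hx
        rw [Finset.mem_erase, Finset.mem_filter]
        exact ⟨hx.2, Finset.mem_univ x, hst x hx.1.2⟩
      have h3 := Finset.card_le_card h2
      rw [Finset.card_erase_of_mem (by rw [Finset.mem_filter]; exact ⟨Finset.mem_univ p, hSp t ht⟩)]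
        at h3
      omega
  · -- S moves p
    exfalso
    -- no nontrivial element commutes with σ
    have hfpf : ∀ s ∈ S, σ * s = s * σ → s = 1 := by
      intro s hs hc
      by_contra hs1
      obtain ⟨t, ht, ht1, htt, ht2, _, htc⟩ := hinvol s hs hs1
      have hct := htc hc
      have h1 := involution_normalises (by omega) hodd hp hB σ t hσB (hSB t ht) hσ ht2 ht1 1 (by
        rw [pow_one, ← hct, mul_assoc, ht2, mul_one])
      have htp : t p = p := by
        apply hpuniq
        have := congrArg (fun f : Equiv.Perm V => f p) hct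
        simp only [Equiv.Perm.mul_apply, hσp] at this
        exact this
      obtain ⟨q, hq⟩ := Finset.card_eq_one.mp h1
      have hpq : p = q := by
        have : p ∈ univ.filter (fun x => t x = x) := by simp [htp]
        rw [hq] at this; simpa using this
      obtain ⟨x, hx⟩ := hFne
      have hx' := (hFmem x).mp hx t ht
      have hxq : x = q := by
        have : x ∈ univ.filter (fun x => t x = x) := by simp [hx']
        rw [hq] at this; simpa using this
      exact hpF (by rw [hpq, ← hxq]; exact hx)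
    -- S is nontrivial
    obtain ⟨s₁, hs₁, hs₁1⟩ : ∃ s ∈ S, s ≠ 1 := by
      by_contra hcon
      push Not at hcon
      apply hpF
      rw [hFmem]
      intro s hs
      rw [hcon s hs]; rfl
    -- so |S| is large
    have hTbig : 2 * k + 2 ≤ T.card := by
      have h1 : (2 * k + 1) ∣ (T.erase 1).card := by
        refine prime_dvd_card_of_free hp (T.erase 1) (fun s => σ * s * σ⁻¹) ?_ ?_ ?_
        · intro s hs
          rw [Finset.mem_erase] at hs ⊢
          refine ⟨fun h => hs.1 ?_, (hT _).mpr (hnorm s ((hT s).mp hs.2))⟩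
          have h2 : σ * s * σ⁻¹ = 1 := h
          have h3 : s = σ⁻¹ * (σ * s * σ⁻¹) * σ := by group
          rw [h3, h2]; group
        · intro s _
          rw [hconjit, hσpow]; simp
        · intro s hs h
          rw [Finset.mem_erase] at hs
          apply hs.1
          apply hfpf s ((hT s).mp hs.2)
          calc σ * s = σ * s * σ⁻¹ * σ := by group
            _ = s * σ := by rw [show σ * s * σ⁻¹ = s from h]
      have h2 : s₁ ∈ T.erase 1 := by rw [Finset.mem_erase]; exact ⟨hs₁1, (hT s₁).mpr hs₁⟩
      have h3 := Nat.le_of_dvd (Finset.card_pos.mpr ⟨_, h2⟩) h1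
      rw [Finset.card_erase_of_mem h1T] at h3
      omega
    -- F has exactly 2k+1 points
    have hFσ : ∀ x ∈ F, σ x ∈ F := by
      intro x hx
      rw [hFmem] at hx ⊢
      intro s hs
      have h1 := hconj 1 s hs
      rw [pow_one] at h1
      have h2 := hx _ h1
      rw [Equiv.Perm.mul_apply, Equiv.Perm.mul_apply] at h2
      have h3 : σ (σ⁻¹ (s (σ x))) = s (σ x) := σ.apply_symm_apply _
      rw [← h3, h2]
    have hFdvd : (2 * k + 1) ∣ F.card := by
      refine prime_dvd_card_of_free hp F σ hFσ ?_ ?_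
      · intro x _
        have : σ^[2 * k + 1] x = (σ ^ (2 * k + 1)) x := by rw [Equiv.Perm.coe_pow]
        rw [this, hσpow]; rfl
      · intro x hx h
        exact hpF (by rw [← hpuniq x h]; exact hx)
    obtain ⟨t₁, ht₁, ht₁1, ht₁t, _, _, _⟩ := hinvol s₁ hs₁ hs₁1
    have hFsub : ∀ t ∈ S, F ⊆ univ.filter (fun x => t x = x) := by
      intro t ht x hx
      rw [Finset.mem_filter]
      exact ⟨Finset.mem_univ x, (hFmem x).mp hx t ht⟩
    have hFcard : F.card = 2 * k + 1 := by
      have h1 := card_fixed_le (by omega) hB t₁ ht₁1 ht₁t (hSB t₁ ht₁)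
      have h2 := Finset.card_le_card (hFsub t₁ ht₁)
      have h3 := Finset.card_pos.mpr hFne
      obtain ⟨c, hc⟩ := hFdvd
      have h4 : c < 2 := by
        by_contra hcon
        have : (2 * k + 1) * 2 ≤ (2 * k + 1) * c := Nat.mul_le_mul_left _ (by omega)
        omega
      interval_cases c
      · omega
      · omega
    -- the blocks meeting F in at least two points
    let I : Finset (Finset V) := B.filter (fun b => ∃ x ∈ b, ∃ y ∈ b, x ≠ y ∧ x ∈ F ∧ y ∈ F)
    have hImem : ∀ b, b ∈ I ↔ b ∈ B ∧ ∃ x ∈ b, ∃ y ∈ b, x ≠ y ∧ x ∈ F ∧ y ∈ F := by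
      intro b; simp [I]
    have hIfix : ∀ b ∈ I, ∀ s ∈ S, s • b = b := by
      intro b hb s hs
      obtain ⟨hbB, x, hx, y, hy, hxy, hxF, hyF⟩ := (hImem b).mp hb
      refine hB.unique_block hxy (hSB s hs b hbB) ?_ ?_ hbB hx hy
      · have := Finset.smul_mem_smul_finset (a := s) hx
        rwa [Equiv.Perm.smul_def, (hFmem x).mp hxF s hs] at this
      · have := Finset.smul_mem_smul_finset (a := s) hy
        rwa [Equiv.Perm.smul_def, (hFmem y).mp hyF s hs] at this
    have hsmulit : ∀ n : ℕ, ∀ b : Finset V, (fun b => σ • b)^[n] b = σ ^ n • b := by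
      intro n
      induction n with
      | zero => intro b; simp
      | succ n ih => intro b; rw [Function.iterate_succ_apply', ih, pow_succ', mul_smul]
    have hfreedvd : ∀ J : Finset (Finset V), J ⊆ B → (∀ b ∈ J, σ • b ∈ J) →
        (2 * k + 1) ∣ J.card := by
      intro J hJB hJ
      refine prime_dvd_card_of_free hp J (fun b => σ • b) hJ ?_ (fun b hb => hnob b (hJB hb))
      intro b _
      rw [hsmulit, hσpow, one_smul]
    have hIσ : ∀ b ∈ I, σ • b ∈ I := by
      intro b hb
      obtain ⟨hbB, x, hx, y, hy, hxy, hxF, hyF⟩ := (hImem b).mp hb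
      rw [hImem]
      refine ⟨hσB b hbB, σ x, ?_, σ y, ?_, fun h => hxy (σ.injective h), hFσ x hxF, hFσ y hyF⟩
      · exact Finset.smul_mem_smul_finset (a := σ) hx
      · exact Finset.smul_mem_smul_finset (a := σ) hy
    have hIcard : 2 * k + 1 ≤ I.card := by
      have h1 := hfreedvd I (Finset.filter_subset _ _) hIσ
      refine Nat.le_of_dvd ?_ h1
      obtain ⟨x, hx, y, hy, hxy⟩ := Finset.one_lt_card.mp (show 1 < F.card by omega)
      obtain ⟨b, hb, hxb, hyb⟩ := hB.exists_block hxy
      exact Finset.card_pos.mpr ⟨b, (hImem b).mpr ⟨hb, x, hxb, y, hyb, hxy, hx, hy⟩⟩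
    -- no block lies inside F
    have hnosub : ∀ b ∈ B, ¬ b ⊆ F := by
      intro b hb hbF
      let J : Finset (Finset V) := B.filter (fun b => b ⊆ F)
      have h1 : (2 * k + 1) ∣ J.card := by
        refine hfreedvd J (Finset.filter_subset _ _) ?_
        intro c hc
        rw [Finset.mem_filter] at hc ⊢
        refine ⟨hσB c hc.1, ?_⟩
        intro x hx
        obtain ⟨y, hy, rfl⟩ := Finset.mem_smul_finset.mp hx
        exact hFσ y (hc.2 hy)
      have h2 : b ∈ J := by rw [Finset.mem_filter]; exact ⟨hb, hbF⟩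
      have h3 := Nat.le_of_dvd (Finset.card_pos.mpr ⟨b, h2⟩) h1
      have h4 : J.biUnion (fun c => c.offDiag) ⊆ F.offDiag := by
        intro q hq
        rw [Finset.mem_biUnion] at hq
        obtain ⟨c, hc, hqc⟩ := hq
        rw [Finset.mem_filter] at hc
        rw [Finset.mem_offDiag] at hqc ⊢
        exact ⟨hc.2 hqc.1, hc.2 hqc.2.1, hqc.2.2⟩
      have h5 : (J.biUnion (fun c => c.offDiag)).card = J.card * (k * k - k) := by
        rw [Finset.card_biUnion]
        · rw [Finset.sum_const_nat]
          intro c hc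
          rw [Finset.mem_filter] at hc
          rw [Finset.offDiag_card, hB.block_size c hc.1]
        · intro c hc c' hc' hne
          rw [Finset.mem_coe, Finset.mem_filter] at hc hc'
          show Disjoint c.offDiag c'.offDiag
          rw [Finset.disjoint_left]
          intro q hq hq'
          rw [Finset.mem_offDiag] at hq hq'
          exact hne (hB.unique_block hq.2.2 hc.1 hq.1 hq.2.1 hc'.1 hq'.1 hq'.2.1)
      have h6 := Finset.card_le_card h4
      rw [h5, Finset.offDiag_card, hFcard] at h6
      have h7 : (2 * k + 1) * (k * k - k) ≤ (2 * k + 1) * (2 * k + 1) - (2 * k + 1) :=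
        le_trans (Nat.mul_le_mul_right _ h3) h6
      have h8 : (2 * k + 1) * (2 * k + 1) - (2 * k + 1) = (2 * k + 1) * (2 * k) := by
        have : (2 * k + 1) * (2 * k + 1) = (2 * k + 1) * (2 * k) + (2 * k + 1) := by ring
        omega
      rw [h8] at h7
      have h9 := Nat.le_of_mul_le_mul_left h7 (by omega)
      obtain ⟨m, rfl⟩ : ∃ m, k = m + 5 := ⟨k - 5, by omega⟩
      have e1 : (m + 5) * (m + 5) - (m + 5) = (m + 5) * (m + 4) := by
        have : (m + 5) * (m + 5) = (m + 5) * (m + 4) + (m + 5) := by ring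
        omega
      rw [e1] at h9
      nlinarith
    have hbd := group_bound (k := k) (by omega) hB S T hT F hFne I hIcard ?_ ?_ ?_ ?_
    · obtain ⟨m, rfl⟩ : ∃ m, k = m + 5 := ⟨k - 5, by omega⟩
      have e1 : m + 5 - 1 = m + 4 := by omega
      rw [e1] at hbd
      have : (2 * (m + 5) + 2) * (m + 5 + 2) ≤ T.card * (m + 5 + 2) :=
        Nat.mul_le_mul_right _ hTbig
      nlinarith
    · intro L hL s hs x hx
      rw [Finset.mem_sdiff] at hx ⊢
      constructor
      · have := Finset.smul_mem_smul_finset (a := s) hx.1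
        rwa [hIfix L hL s hs, Equiv.Perm.smul_def] at this
      · intro h
        apply hx.2
        have h1 := (hFmem _).mp h s⁻¹ (S.inv_mem hs)
        have h2 : s⁻¹ (s x) = x := s.symm_apply_apply x
        rw [h2] at h1
        rw [h1]; exact h
    · intro L hL
      have hLB := ((hImem L).mp hL).1
      have h1 := hnosub L hLB
      rw [Finset.not_subset] at h1
      obtain ⟨x, hx, hxF⟩ := h1
      exact ⟨x, by rw [Finset.mem_sdiff]; exact ⟨hx, hxF⟩⟩
    · intro L hL L' hL' hne
      rw [Finset.disjoint_left]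
      intro x hx hx'
      rw [Finset.mem_sdiff] at hx hx'
      apply hx.2
      rw [hFmem]
      intro s hs
      by_contra hsx
      apply hne
      have h1 := Finset.smul_mem_smul_finset (a := s) hx.1
      rw [hIfix L hL s hs, Equiv.Perm.smul_def] at h1
      have h2 := Finset.smul_mem_smul_finset (a := s) hx'.1
      rw [hIfix L' hL' s hs, Equiv.Perm.smul_def] at h2
      exact hB.unique_block hsx ((hImem L).mp hL).1 h1 hx.1 ((hImem L').mp hL').1 h2 hx'.1
    · intro s hs hs1
      obtain ⟨t, ht, ht1, htt, _, hst, _⟩ := hinvol s hs hs1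
      have h1 := card_fixed_le (by omega) hB t ht1 htt (hSB t ht)
      have h2 : (univ.filter (fun x => s x = x)) \ F ⊆ (univ.filter (fun x => t x = x)) \ F := by
        intro x hx
        rw [Finset.mem_sdiff, Finset.mem_filter] at hx ⊢
        exact ⟨⟨Finset.mem_univ x, hst x hx.1.2⟩, hx.2⟩
      have h3 := Finset.card_le_card h2
      rw [Finset.card_sdiff_of_subset (hFsub t ht), hFcard] at h3
      omega

end Run7.h570
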