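import Mathlib
import Pool.Agent.Run7.h570.Design
import Pool.Agent.Run7.h570.Orbits
import Pool.Agent.Run7.h570.Reverse
import Pool.Agent.Run7.h570.Normaliser
import Pool.Agent.Run7.h570.Sigma
import Pool.Agent.Run7.h570.TwoGroup
import Pool.Agent.Run7.h570.TwoGroup2
import Pool.Agent.Run7.h570.GroupPart

/-!
Solvable groups of automorphisms whose order is divisible by the prime `2k+1`.
-/

namespace Run7.h570

open Finset Pointwise

variable {V : Type} [Fintype V] [DecidableEq V] {k : ℕ} {B : Finset (Finset V)}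

/-- The square of the prime `2k+1` does not divide the order of a group of automorphisms. -/
lemma not_sq_dvd (hk : 3 ≤ k) (hp : (2 * k + 1).Prime) (hB : IsDesign k B)
    (G : Subgroup (Equiv.Perm V)) (hG : ∀ g ∈ G, ∀ b ∈ B, g • b ∈ B) :
    ¬ (2 * k + 1) ^ 2 ∣ Nat.card G := by
  classical
  intro hdvd
  have : Fact (2 * k + 1).Prime := ⟨hp⟩
  obtain ⟨R, hR⟩ := Sylow.exists_subgroup_card_pow_prime (G := G) (2 * k + 1) (n := 2) hdvd
  have hRp : IsPGroup (2 * k + 1) R := IsPGroup.of_card hR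
  -- an element of order p
  have hRd : (2 * k + 1) ∣ Nat.card R := by rw [hR]; exact dvd_pow_self _ (by norm_num)
  obtain ⟨σ₀, hσ₀⟩ := exists_prime_orderOf_dvd_card' (G := R) (2 * k + 1) hRd
  have hfacts : ∀ s : R, orderOf s = 2 * k + 1 → ∃ p : V, ((s : G) : Equiv.Perm V) p = p ∧
      (∀ x, ((s : G) : Equiv.Perm V) x = x → x = p) ∧
      (∀ b ∈ B, ((s : G) : Equiv.Perm V) • b ≠ b) := by
    intro s hs
    have hs' : orderOf ((s : G) : Equiv.Perm V) = 2 * k + 1 := by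
      rw [Subgroup.orderOf_coe, Subgroup.orderOf_coe]; exact hs
    obtain ⟨p, h1, h2, h3, _, _⟩ := sigma_facts hk hp hB ((s : G) : Equiv.Perm V)
      (hG _ (s : G).2) hs'
    exact ⟨p, h1, h2, h3⟩
  obtain ⟨p, hp1, hp2, _⟩ := hfacts σ₀ hσ₀
  -- R fixes a point
  have hv := hB.card_points
  have hv1 : (k - 1) * (2 * k + 1) + 1 = k * (2 * k - 1) := by
    obtain ⟨m, rfl⟩ : ∃ m, k = m + 2 := ⟨k - 2, by omega⟩
    have e1 : m + 2 - 1 = m + 1 := by omega
    have e2 : 2 * (m + 2) - 1 = 2 * m + 3 := by omega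
    rw [e1, e2]; ring
  have hRfix : ∀ s : R, ((s : G) : Equiv.Perm V) p = p := by
    have h1 := hRp.card_modEq_card_fixedPoints V
    rw [Nat.card_eq_fintype_card, hv, ← hv1] at h1
    have h2 : (MulAction.fixedPoints R V).Nonempty := by
      rw [Set.nonempty_iff_ne_empty]
      intro hemp
      rw [hemp] at h1
      have h3 : Nat.card (∅ : Set V) = 0 := by simp
      rw [h3] at h1
      have h4 : ((k - 1) * (2 * k + 1) + 1) % (2 * k + 1) = 0 % (2 * k + 1) := h1
      rw [Nat.add_mod, Nat.mul_mod_left, zero_add, Nat.zero_mod, Nat.mod_mod] at h4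
      rw [Nat.mod_eq_of_lt (by omega)] at h4
      omega
    obtain ⟨x, hx⟩ := h2
    have hxp : x = p := hp2 x (hx σ₀)
    intro s
    have := hx s
    rw [hxp] at this
    exact this
  -- act on the blocks through p
  obtain ⟨L, hL⟩ := Finset.card_pos.mp (show 0 < (B.filter (fun b => p ∈ b)).card by
    rw [hB.point_degree p]; omega)
  rw [Finset.mem_filter] at hL
  have hstab := Subgroup.card_mul_index (MulAction.stabilizer R L)
  rw [MulAction.index_stabilizer, hR] at hstab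
  have horb : (MulAction.orbit R L).ncard ≤ 2 * k + 1 := by
    rw [← hB.point_degree p, ← Set.ncard_coe_finset]
    refine Set.ncard_le_ncard ?_ (Finset.finite_toSet _)
    rintro _ ⟨s, rfl⟩
    rw [Finset.mem_coe, Finset.mem_filter]
    refine ⟨hG _ (s : G).2 L hL.1, ?_⟩
    have := Finset.smul_mem_smul_finset (a := ((s : G) : Equiv.Perm V)) hL.2
    rwa [Equiv.Perm.smul_def, hRfix s] at this
  have hdiv : Nat.card (MulAction.stabilizer R L) ∣ (2 * k + 1) ^ 2 := ⟨_, hstab.symm⟩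
  obtain ⟨m, hm, hcard⟩ := (Nat.dvd_prime_pow hp).mp hdiv
  have hm0 : m ≠ 0 := by
    intro h0
    rw [hcard, h0, pow_zero, one_mul] at hstab
    rw [hstab] at horb
    nlinarith
  have hpd : (2 * k + 1) ∣ Nat.card (MulAction.stabilizer R L) := by
    rw [hcard]; exact dvd_pow_self _ hm0
  obtain ⟨g, hg⟩ := exists_prime_orderOf_dvd_card' (G := MulAction.stabilizer R L) (2 * k + 1) hpd
  obtain ⟨_, _, _, h3⟩ := hfacts (g : R) (by rw [Subgroup.orderOf_coe]; exact hg)
  exact h3 L hL.1 (MulAction.mem_stabilizer_iff.mp g.2)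

theorem solvable_involution (hk : 5 ≤ k) (hodd : k % 2 = 1) (hp : (2 * k + 1).Prime)
    (hB : IsDesign k B) (G : Subgroup (Equiv.Perm V)) (hsol : Group.IsSolvable G)
    (hG : ∀ g ∈ G, ∀ b ∈ B, g • b ∈ B) (hdvd : (2 * k + 1) ∣ Nat.card G)
    (τ : Equiv.Perm V) (hτG : τ ∈ G) (hτ2 : τ * τ = 1) (hτ1 : τ ≠ 1) :
    (univ.filter (fun x => τ x = x)).card = 1 := by
  classical
  have : Fact (2 * k + 1).Prime := ⟨hp⟩
  have hC : CentTwo (2 * k + 1) G := by
    intro σ hσ S hS hn s hs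
    have h1 := two_group_centralised hk hodd hp hB (σ : Equiv.Perm V) (hG _ σ.2)
      (by rw [Subgroup.orderOf_coe]; exact hσ) (S.map G.subtype) (hS.map _)
      (by
        rintro _ ⟨t, _, rfl⟩
        exact hG _ t.2)
      (by
        rintro _ ⟨t, ht, rfl⟩
        exact ⟨σ * t * σ⁻¹, hn t ht, rfl⟩) (s : Equiv.Perm V) ⟨s, hs, rfl⟩
    exact Subtype.ext h1
  obtain ⟨σ, hσ, hmem⟩ := exists_normalised (2 * k + 1) G hC hdvd
    (not_sq_dvd (by omega) hp hB G hG) ⟨τ, hτG⟩ (Subtype.ext hτ2)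
  have hfin : ∃ j : ℕ, σ ^ j = ⟨τ, hτG⟩ * σ * (⟨τ, hτG⟩ : G)⁻¹ := by
    rwa [← mem_powers_iff_mem_zpowers] at hmem
  obtain ⟨j, hj⟩ := hfin
  have hj' : (σ : Equiv.Perm V) ^ j = τ * σ * τ⁻¹ := congrArg Subtype.val hj
  have hinv : τ⁻¹ = τ := (eq_inv_of_mul_eq_one_left hτ2).symm
  rw [hinv] at hj'
  exact involution_normalises (by omega) hodd hp hB (σ : Equiv.Perm V) τ (hG _ σ.2) (hG _ hτG)
    (by rw [Subgroup.orderOf_coe]; exact hσ) hτ2 hτ1 j hj'.symm

end Run7.h570
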